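import Pool.Agent.Work.MP_7b0bad_ag.ApT.Stmts
import Pool.Agent.Work.MP_7b0bad_ag.AnT.AAff

set_option autoImplicit false

/-!
# Block ApT, item PAff: the decomposition group acts by affine maps on the labels
-/

open Polynomial Pointwise

namespace MP7b0bad.ApT

open SnT (cc xx rp)
open AnT (AAff_dec AAff_non AAff_sub AAff_add AAff_mul AAff_nat)

theorem PAff_root {k : Type} [Field k] {L : Type} [Field L] [Algebra (RatFunc k) L] {p : ℕ}
    (σ : L ≃ₐ[RatFunc k] L) (y : L) (hy : y ∈ (FP k p).rootSet L) :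
    σ y ∈ (FP k p).rootSet L := by
  have h1 := mem_rootSet.1 hy
  refine mem_rootSet.2 ⟨h1.1, ?_⟩
  have h2 : aeval (σ y) (FP k p) = σ (aeval y (FP k p)) := by
    exact aeval_algHom_apply (σ : L →ₐ[RatFunc k] L) y (FP k p)
  rw [h2, h1.2, map_zero]

theorem prf_PAff (hDif : PDif) : PAff := by
  intro p _ k _ _ hp L _ _ A hA d lab hL σ hσ
  have : CharP L p := charP_of_injective_algebraMap (algebraMap (RatFunc k) L).injective p
  obtain ⟨y0, hy0, y1, hy1, hne, hd⟩ := hL.dif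
  have hd0 : d ≠ 0 := by rw [hd]; exact sub_ne_zero.2 hne
  have hσd : σ d = σ y1 - σ y0 := by rw [hd, map_sub]
  have hσd0 : σ d ≠ 0 := fun h => hd0 ((map_eq_zero_iff _ σ.injective).1 h)
  obtain ⟨θ, hθ, hθ'⟩ := (hDif p k hp L A hA y0 hy0 y1 hy1 hne).2 (σ y0)
    (PAff_root σ y0 hy0) (σ y1) (PAff_root σ y1 hy1) (fun h => hne (σ.injective h))
  rw [← hσd, ← hd] at hθ'
  refine ⟨θ, hθ, hθ', ?_⟩
  intro y hy y' hy'
  set n := (lab y - lab y').val with hn
  set n' := (lab (σ y) - lab (σ y')).val with hn'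
  have h1 := (AAff_non σ hσ _).2 (hL.res y hy y' hy')
  rw [map_sub, map_div₀, map_sub, map_natCast] at h1
  have h2 := hL.res (σ y) (PAff_root σ y hy) (σ y') (PAff_root σ y' hy')
  have hwA : σ d / d ∈ A := by
    have h3 := A.add_mem _ _ (A.nonunits_subset hθ') (natCast_mem A θ.val)
    rwa [sub_add_cancel] at h3
  have h4 : (σ y - σ y') / σ d * (σ d / d) = (σ y - σ y') / d := by
    field_simp
  have h5 := AAff_mul h1 hwA
  have h6 := AAff_mul hθ' (natCast_mem A n)
  have h7 : (((n * θ.val : ℕ) : L)) - ((n' : ℕ) : L) ∈ A.nonunits := by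
    have h8 := AAff_sub h2 (AAff_add h5 h6)
    have h9 : (σ y - σ y') / d - ((n' : ℕ) : L) -
        (((σ y - σ y') / σ d - (n : L)) * (σ d / d) + (σ d / d - ((θ.val : ℕ) : L)) * (n : L)) =
        (((n * θ.val : ℕ) : L)) - ((n' : ℕ) : L) := by
      push_cast
      rw [sub_mul, h4]
      ring
    rwa [h9] at h8
  have h10 := AAff_nat (p := p) h7
  rw [Nat.cast_mul, hn, hn', ZMod.natCast_zmod_val, ZMod.natCast_zmod_val,
    ZMod.natCast_zmod_val] at h10
  rw [← h10, mul_comm]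

end MP7b0bad.ApT
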