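import Pool.Agent.Work.MP_7b0bad_ag.ApT.Stmts
import Pool.Agent.Work.MP_7b0bad_ag.Bd.B03

set_option autoImplicit false

/-!
# Block ApT, item PDif (helper61): differences of the roots
-/

open Polynomial Pointwise

namespace MP7b0bad.ApT

open SnT (cc xx rp)

variable {L : Type} [Field L] (A : ValuationSubring L)

theorem PDif_res {a : L} (ha : a ∈ A) (h : A.valuation (a - 1) < 1) :
    IsLocalRing.residue A ⟨a, ha⟩ = 1 := by
  have h1 : ((⟨a, ha⟩ - 1 : A) : L) ∈ A.nonunits := by
    rw [A.mem_nonunits_iff]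
    exact h
  have h2 := (A.coe_mem_nonunits_iff).1 h1
  have h3 := (IsLocalRing.residue_eq_zero_iff (R := A) _).2 h2
  rw [map_sub, map_one, sub_eq_zero] at h3
  exact h3

/-- the identity `d ^ (p - 1) = 2 y + d` -/
theorem PDif_id (p : ℕ) [Fact p.Prime] [CharP L p] (x y y' : L)
    (hne : y' ≠ y) (h : y ^ p + x ^ 2 = y ^ 2) (h' : y' ^ p + x ^ 2 = y' ^ 2) :
    (y' - y) ^ (p - 1) = 2 * y + (y' - y) := by
  have hd : y' - y ≠ 0 := sub_ne_zero.2 hne
  have hp1 : p = (p - 1) + 1 := by
    have := (Fact.out : p.Prime).one_lt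
    omega
  have h2 : (y' - y) ^ p = y' ^ p - y ^ p := sub_pow_char y' y
  have h4 : (y' - y) ^ p = (y' - y) ^ (p - 1) * (y' - y) := by
    conv_lhs => rw [hp1, pow_succ]
  apply mul_right_cancel₀ hd
  rw [← h4, h2]
  linear_combination h' - h

/-- the value of a difference, and its leading coefficient -/
theorem PDif_one (p : ℕ) [Fact p.Prime] [CharP L p] (hp5 : 5 ≤ p) (x y y' : L)
    (hne : y' ≠ y) (h : y ^ p + x ^ 2 = y ^ 2)
    (h' : y' ^ p + x ^ 2 = y' ^ 2) (hv : 1 < A.valuation y)
    (hv' : A.valuation y' = A.valuation y) :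
    A.valuation (y' - y) < A.valuation y ∧ ∃ E : A, (E : L) = (y' - y) ^ (p - 1) / y ∧
      IsLocalRing.residue A E = ((2 : ℕ) : IsLocalRing.ResidueField A) := by
  have hy0 : y ≠ 0 := by
    rintro rfl
    rw [map_zero] at hv
    exact absurd hv (not_lt.2 zero_le_one)
  have hvy0 : A.valuation y ≠ 0 := (zero_lt_one.trans hv).ne'
  have hid := PDif_id p x y y' hne h h'
  have hle : A.valuation (y' - y) ^ (p - 1) ≤ A.valuation y := by
    rw [← map_pow, hid]
    have e1 : 2 * y + (y' - y) = y' + y := by ring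
    rw [e1]
    exact (A.valuation.map_add y' y).trans (by rw [hv', max_self])
  have hd : A.valuation (y' - y) < A.valuation y := by
    by_contra hcon
    push Not at hcon
    have h1 : A.valuation y ^ (p - 1) ≤ A.valuation y :=
      (pow_le_pow_left₀ zero_le hcon _).trans hle
    have h2 : A.valuation y < A.valuation y ^ (p - 1) := by
      conv_lhs => rw [← pow_one (A.valuation y)]
      exact pow_lt_pow_right₀ hv (by omega)
    exact absurd (h2.trans_le h1) (lt_irrefl _)
  have hq : A.valuation ((y' - y) / y) < 1 := by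
    rw [map_div₀, div_lt_one₀ (zero_lt_iff.2 hvy0)]
    exact hd
  have hqA : (y' - y) / y ∈ A := (A.valuation_le_one_iff _).1 hq.le
  refine ⟨hd, ((2 : ℕ) : A) + ⟨(y' - y) / y, hqA⟩, ?_, ?_⟩
  · have e2 : (((2 : ℕ) : A) : L) = 2 := by
      have h3 := map_natCast A.subtype 2
      rw [Nat.cast_ofNat] at h3
      exact h3
    have e3 : ((((2 : ℕ) : A) + ⟨(y' - y) / y, hqA⟩ : A) : L) =
        (((2 : ℕ) : A) : L) + (y' - y) / y := rfl
    rw [e3, e2, hid, add_div, mul_div_assoc, div_self hy0, mul_one]
  · rw [map_add, map_natCast]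
    have h1 : (((⟨(y' - y) / y, hqA⟩ : A) : A) : L) ∈ A.nonunits := by
      rw [A.mem_nonunits_iff]
      exact hq
    have h2 := (A.coe_mem_nonunits_iff).1 h1
    have h3 := (IsLocalRing.residue_eq_zero_iff (R := A) _).2 h2
    rw [h3, add_zero]

theorem prf_PDif (hVal : PVal) : PDif := by
  intro p hp k _ hk hp5 L _ _ A hA y hy y' hy' hne
  have hp1 := hp.out.one_lt
  have hcL : CharP L p := by
    have : CharP (RatFunc k) p := charP_of_injective_algebraMap (algebraMap k (RatFunc k)).injective p
    exact charP_of_injective_algebraMap (algebraMap (RatFunc k) L).injective p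
  have hV := hVal p k hp5 L A hA
  have hvX : ∀ y ∈ (FP k p).rootSet L, 1 < A.valuation y := by
    intro y hy
    have h1 := (hV y hy).1
    rw [← A.valuation_le_one_iff, not_le] at h1
    exact h1
  have hvv : ∀ y ∈ (FP k p).rootSet L, ∀ z ∈ (FP k p).rootSet L,
      A.valuation z = A.valuation y := by
    intro y hy z hz
    have h1 := (hV z hz).2.trans (hV y hy).2.symm
    exact (pow_left_inj₀ zero_le zero_le (by omega)).1 h1
  -- the residue of `2`
  have he0 : ((2 : ℕ) : IsLocalRing.ResidueField A) ≠ 0 := by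
    have h1 : ((2 : ℕ) : k) ≠ 0 := by
      intro h
      have h2 := Nat.le_of_dvd (by norm_num) ((CharP.cast_eq_zero_iff k p 2).1 h)
      omega
    have h2 := F3_C hA _ h1
    rw [map_natCast, map_natCast] at h2
    intro h3
    have h4 : IsLocalRing.residue A ((2 : ℕ) : A) = 0 := by
      rw [map_natCast]
      exact h3
    have h5 := (A.coe_mem_nonunits_iff).2 ((IsLocalRing.residue_eq_zero_iff (R := A) _).1 h4)
    rw [A.mem_nonunits_iff] at h5
    have h6 : (((2 : ℕ) : A) : L) = ((2 : ℕ) : L) := by push_cast; rfl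
    rw [h6, h2] at h5
    exact lt_irrefl _ h5
  obtain ⟨hd, E, hE, hEr⟩ := PDif_one A p hp5 (xx k L) y y' hne (root_eq hy) (root_eq hy')
    (hvX y hy) (hvv y hy y' hy')
  have hunit : ∀ E : A, IsLocalRing.residue A E = ((2 : ℕ) : IsLocalRing.ResidueField A) →
      A.valuation (E : L) = 1 := by
    intro E hEr
    refine le_antisymm ((A.valuation_le_one_iff _).2 E.2) ?_
    by_contra hcon
    push Not at hcon
    have h1 := (A.coe_mem_nonunits_iff).1 ((A.mem_nonunits_iff).2 hcon)
    rw [← IsLocalRing.residue_eq_zero_iff, hEr] at h1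
    exact he0 h1
  have hEv := hunit E hEr
  have hy0 : y ≠ 0 := by
    rintro rfl
    exact (hV 0 hy).1 A.zero_mem
  have hvy0 : A.valuation y ≠ 0 := (Valuation.ne_zero_iff _).2 hy0
  have hEv' := hEv
  rw [hE, map_div₀, map_pow, div_eq_one_iff_eq hvy0] at hEv'
  refine ⟨?_, ?_⟩
  · rw [← (hV y hy).2, ← hEv', ← pow_mul, mul_comm p (p - 1)]
  · intro z hz z' hz' hne'
    obtain ⟨hd', E', hE', hEr'⟩ := PDif_one A p hp5 (xx k L) z z' hne' (root_eq hz) (root_eq hz')
      (hvX z hz) (hvv z hz z' hz')
    have hEv2 := hunit E' hEr'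
    have hz0 : z ≠ 0 := by
      rintro rfl
      exact (hV 0 hz).1 A.zero_mem
    have hyz : A.valuation z = A.valuation y := hvv y hy z hz
    have hdd : y' - y ≠ 0 := sub_ne_zero.2 hne
    -- the quotient of the roots
    have hrA : A.valuation (z / y) = 1 := by rw [map_div₀, hyz, div_self hvy0]
    have hr1 : A.valuation (z / y - 1) < 1 := by
      by_cases hzy : z = y
      · rw [hzy, div_self hy0, sub_self, map_zero]
        exact zero_lt_one
      · have h1 := (PDif_one A p hp5 (xx k L) y z hzy (root_eq hy) (root_eq hz)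
          (hvX y hy) hyz).1
        have e1 : z / y - 1 = (z - y) / y := by field_simp
        rw [e1, map_div₀, div_lt_one₀ (zero_lt_iff.2 hvy0)]
        exact h1
    have hrA' : z / y ∈ A := (A.valuation_le_one_iff _).1 hrA.le
    have hrr := PDif_res A hrA' hr1
    -- the quotient of the differences
    set w : L := (z' - z) / (y' - y) with hw
    have hwid : (E : L) * w ^ (p - 1) = E' * (z / y) := by
      rw [hE, hE', hw, div_pow]
      field_simp
    have hwv : A.valuation w = 1 := by
      have h1 := congrArg A.valuation hwid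
      rw [map_mul, map_mul, map_pow, hEv, hEv2, hrA, one_mul, mul_one] at h1
      exact (pow_eq_one_iff_left (by omega)).1 h1
    have hwA : w ∈ A := (A.valuation_le_one_iff _).1 hwv.le
    have hwid' : E * (⟨w, hwA⟩ : A) ^ (p - 1) = E' * (⟨z / y, hrA'⟩ : A) := by
      apply Subtype.ext
      push_cast
      exact hwid
    have h1 := congrArg (IsLocalRing.residue A) hwid'
    rw [map_mul, map_mul, map_pow, hrr, mul_one, hEr, hEr'] at h1
    have h2 : (IsLocalRing.residue A (⟨w, hwA⟩ : A)) ^ (p - 1) = 1 := by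
      apply mul_left_cancel₀ he0
      rw [h1, mul_one]
    have hcκ : CharP (IsLocalRing.ResidueField A) p := by
      have hpA : ((p : ℕ) : A) = 0 := by
        apply Subtype.ext
        push_cast
        exact CharP.cast_eq_zero L p
      have hpκ : ((p : ℕ) : IsLocalRing.ResidueField A) = 0 := by
        rw [← map_natCast (IsLocalRing.residue A), hpA, map_zero]
      have h3 := ringChar.dvd hpκ
      rcases (Nat.dvd_prime hp.out).1 h3 with h4 | h4
      · exact absurd h4 CharP.ringChar_ne_one
      · exact ringChar.of_eq h4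
    have h3 : (IsLocalRing.residue A (⟨w, hwA⟩ : A)) ^ p =
        IsLocalRing.residue A (⟨w, hwA⟩ : A) := by
      have e1 : p = (p - 1) + 1 := by omega
      conv_lhs => rw [e1, pow_succ, h2, one_mul]
    have h4 := (Subfield.mem_bot_iff_pow_eq_self (F := IsLocalRing.ResidueField A) p).2 h3
    rw [← ZMod.fieldRange_castHom_eq_bot p] at h4
    obtain ⟨a, ha⟩ := h4
    refine ⟨a, ?_, ?_⟩
    · rintro rfl
      rw [map_zero] at ha
      rw [← ha, zero_pow (by omega)] at h2
      exact zero_ne_one h2
    · have h5 : IsLocalRing.residue A ((⟨w, hwA⟩ : A) - ((a.val : ℕ) : A)) = 0 := by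
        rw [map_sub, map_natCast, ← ha, ZMod.castHom_apply, ZMod.natCast_val, sub_self]
      have h6 := (A.coe_mem_nonunits_iff).2 ((IsLocalRing.residue_eq_zero_iff (R := A) _).1 h5)
      have h7 : (((⟨w, hwA⟩ : A) - ((a.val : ℕ) : A) : A) : L) = w - ((a.val : ℕ) : L) := by
        push_cast
        rfl
      rw [h7] at h6
      exact h6

end MP7b0bad.ApT
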