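import Pool.Agent.Work.MP_7b0bad_ag.ApT.Stmts
import Pool.Agent.Work.MP_7b0bad_ag.AnT.AFld

/-!
# Block ApT, item PFld: the decomposition group at infinity
-/

set_option autoImplicit false

open Polynomial Pointwise

namespace MP7b0bad.ApT

open SnT (cc xx rp)

theorem prf_PFld (hLab : PLab) (hOrb : POrb) (hAff : PAff) (hOrd : POrd) (hGrp : PGrp) :
    PFld := by
  intro p _ k _ _ _ hp5 L _ _ _ _ _ A hA
  obtain ⟨d, lab, hlab⟩ := hLab p k hp5 L A hA
  have hO := hOrb p k hp5 L A hA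
  have hord := hOrd p k hp5 L A hA
  have hst : ∀ σ ∈ A.decompositionSubgroup (RatFunc k), ∀ y ∈ (FP k p).rootSet L,
      σ y ∈ (FP k p).rootSet L := fun σ _ y hy => SnT.rp_mem _ σ y hy
  haveI : Finite (L ≃ₐ[RatFunc k] L) := inferInstance
  haveI : Finite (A.decompositionSubgroup (RatFunc k)) := inferInstance
  let B : Type := (FP k p).rootSet L
  let β : A.decompositionSubgroup (RatFunc k) →* Equiv.Perm B :=
    AnT.AFld_act (A.decompositionSubgroup (RatFunc k)) ((FP k p).rootSet L) hst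
  let lb : B ≃ ZMod p := Equiv.ofBijective (fun y : B => lab (y : L))
    ⟨fun y y' h => Subtype.ext (hlab.inj y y.2 y' y'.2 h), fun a => by
      obtain ⟨y, hy, hya⟩ := hlab.surj a
      exact ⟨⟨y, hy⟩, hya⟩⟩
  have hlb : ∀ y : B, lb y = lab (y : L) := fun _ => rfl
  have hβ : ∀ (g : A.decompositionSubgroup (RatFunc k)) (y : B),
      ((β g y : B) : L) = (g : L ≃ₐ[RatFunc k] L) y := fun _ _ => rfl
  obtain ⟨τ, c, hgen, hoτ, _, hβt, hoc, hnor, hfix, he1⟩ :=
    hGrp p (A.decompositionSubgroup (RatFunc k)) B β lb hp5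
      (by
        rw [injective_iff_map_eq_one]
        intro g h1
        have h3 : (g : L ≃ₐ[RatFunc k] L) = 1 := by
          refine AnT.AFld_one (FP k p) _ (fun y hy => ?_)
          have h5 := hβ g ⟨y, hy⟩
          rw [h1] at h5
          exact h5.symm
        exact Subtype.ext h3)
      (by
        intro g
        obtain ⟨θ, h1, _, h2⟩ := hAff p k hp5 L A hA d lab hlab g g.2
        refine ⟨θ, h1, fun y y' => ?_⟩
        rw [hlb, hlb, hlb, hlb, hβ, hβ]
        exact h2 y y.2 y' y'.2)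
      (by
        intro y y'
        obtain ⟨σ, h1, h2⟩ := hO y y.2 y' y'.2
        exact ⟨⟨σ, h1⟩, Subtype.ext h2⟩)
      hord
  refine ⟨τ, c, ?_, ?_, ?_, ?_, ?_, ?_, ?_⟩
  · have h1 : (⊤ : Subgroup (A.decompositionSubgroup (RatFunc k))).map
        (A.decompositionSubgroup (RatFunc k)).subtype = A.decompositionSubgroup (RatFunc k) := by
      rw [← MonoidHom.range_eq_map, Subgroup.range_subtype]
    rw [← hgen, Subgroup.map_sup, MonoidHom.map_zpowers, MonoidHom.map_zpowers] at h1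
    exact h1.symm
  · rw [Subgroup.orderOf_coe]; exact hoτ
  · intro y hy y' hy'
    obtain ⟨m, hm⟩ := hβt ⟨y, hy⟩ ⟨y', hy'⟩
    refine ⟨m, ?_⟩
    have h1 := AnT.AFld_act_pow (A.decompositionSubgroup (RatFunc k)) ((FP k p).rootSet L) hst τ m
      ⟨y, hy⟩
    rw [← h1]
    exact congrArg Subtype.val hm
  · rw [Subgroup.orderOf_coe]; exact hoc
  · obtain ⟨a, ha⟩ := hnor
    exact ⟨a, by
      have h1 := congrArg (Subtype.val) ha
      simpa using h1⟩
  · obtain ⟨y, hy⟩ := hfix
    exact ⟨y, y.2, congrArg Subtype.val hy⟩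
  · intro m hm
    refine he1 m (Subtype.ext ?_)
    simpa using hm

end MP7b0bad.ApT
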