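import Pool.Agent.Work.MP_7b0bad_ag.ApT.Stmts
import Pool.Agent.Work.MP_7b0bad_ag.AnT.AGrp

set_option autoImplicit false

/-!
# Block ApT, item PGrp: the group theory of the decomposition group at infinity

The case `e = 1`, `S` a point, `k = ZMod p`, `Θ` the linear part, of the item `AGrp` of block AnT.
-/

namespace MP7b0bad.ApT

/-- the group theory -/
theorem prf_PGrp : PGrp := by
  intro p _ D B _ _ β lab hp hinj h2 hB hcard
  have hp2 : p ≠ 2 := by omega
  let Θ : D →* (ZMod p)ˣ :=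
    { toFun := fun g => Units.mk0 (AnT.AGrp_th β lab g) (AnT.AGrp_ne β lab h2 g)
      map_one' := by
        ext
        simp [AnT.AGrp_th]
      map_mul' := fun g h => by
        ext
        exact AnT.AGrp_thmul β lab h2 g h }
  have h4 : ∀ g, Θ g = 1 → (1 : D →* Equiv.Perm Unit) g = 1 ∧
      ∀ y y', lab (β g y) - lab (β g y') = lab y - lab y' := by
    intro g hg
    refine ⟨rfl, fun y y' => ?_⟩
    have hth : AnT.AGrp_th β lab g = 1 := congrArg Units.val hg
    rw [AnT.AGrp_aff β lab h2 g y, AnT.AGrp_aff β lab h2 g y', hth]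
    ring
  have h5 : p * (p - 1) ∣ (1 + 1) * Nat.card D := hcard
  obtain ⟨τ, c, h6, h7, -, h8, h9, h10, h11, h12, -, h13⟩ :=
    AnT.prf_AGrp p (ZMod p) 1 D B Unit β 1 lab Θ hp2 one_pos (by simp)
      (fun g hg _ => hinj (by rw [hg, map_one])) h2 hB
      (fun y y' => ⟨1, Subsingleton.elim _ _⟩) h4 h5
  exact ⟨τ, c, h6, h7, h8, h9, h10, h11, h12, h13 rfl⟩

end MP7b0bad.ApT
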