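import Pool.Agent.Work.MP_7b0bad_ag.ApT.Stmts

set_option autoImplicit false

/-!
# The covers `y ^ p - y ^ 2 + x ^ 2 = 0`: the polynomial is irreducible and separable
-/

open Polynomial

namespace MP7b0bad.ApT

/-- the polynomial over a general ring is monic of degree `p` -/
private theorem PIrr_monic {A : Type} [CommRing A] [Nontrivial A] (p : ℕ) (hp : 5 ≤ p) (c : A) :
    (X ^ p - X ^ 2 + C c : A[X]).Monic ∧ (X ^ p - X ^ 2 + C c : A[X]).natDegree = p := by
  have h1 : (X ^ p - X ^ 2 + C c : A[X]) = X ^ p + (C c - X ^ 2) := by ring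
  have h2 : (C c - X ^ 2 : A[X]).natDegree ≤ 2 := by
    refine (natDegree_sub_le _ _).trans ?_
    rw [natDegree_C, natDegree_X_pow]
    exact max_le (Nat.zero_le _) le_rfl
  have h3 : (C c - X ^ 2 : A[X]).degree < (p : WithBot ℕ) := by
    refine degree_le_natDegree.trans_lt ?_
    exact_mod_cast (by omega : (C c - X ^ 2 : A[X]).natDegree < p)
  rw [h1]
  refine ⟨monic_X_pow_add h3, ?_⟩
  rw [natDegree_add_eq_left_of_natDegree_lt, natDegree_X_pow]
  rw [natDegree_X_pow]
  omega

/-- `Y^2 - Y^p` is not a square, by the parity of the degree -/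
private theorem PIrr_irr {k : Type} [Field k] (p : ℕ) (hp : 5 ≤ p) (hodd : Odd p) :
    Irreducible (X ^ p - X ^ 2 + C (X ^ 2) : k[X][X]) := by
  have h2 : (X ^ p - X ^ 2 + C (X ^ 2) : k[X][X]) =
      Bivariate.swap (R := k) (X ^ 2 + C (X ^ p - X ^ 2)) := by
    simp only [map_add, map_pow, Bivariate.swap_C, Bivariate.swap_Y, Polynomial.map_sub,
      Polynomial.map_pow, Polynomial.map_X]
    ring
  rw [h2, MulEquiv.irreducible_iff]
  have hm : (X ^ 2 + C (X ^ p - X ^ 2) : k[X][X]).Monic := monic_X_pow_add_C _ two_ne_zero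
  have hd : (X ^ 2 + C (X ^ p - X ^ 2) : k[X][X]).natDegree = 2 := natDegree_X_pow_add_C
  rw [hm.irreducible_iff_roots_eq_zero_of_degree_le_three (by rw [hd]) (by rw [hd]; norm_num)]
  by_contra hr
  obtain ⟨s, hs⟩ := Multiset.exists_mem_of_ne_zero hr
  have hs1 := (mem_roots hm.ne_zero).1 hs
  rw [IsRoot.def, eval_add, eval_pow, eval_X, eval_C] at hs1
  have hs2 : (X ^ p - X ^ 2 : k[X]) = - s ^ 2 := by linear_combination hs1
  have hd1 : (X ^ p - X ^ 2 : k[X]).natDegree = p := by
    have := (PIrr_monic (A := k) p hp 0).2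
    rwa [C_0, add_zero] at this
  rw [hs2, natDegree_neg, natDegree_pow] at hd1
  rw [← hd1] at hodd
  exact (Nat.not_odd_iff_even.2 ⟨s.natDegree, by ring⟩) hodd

theorem prf_PIrr : PIrr := by
  intro p _ k _ _ hp5
  have hpp : p.Prime := Fact.out
  have hodd : Odd p := hpp.odd_of_ne_two (by omega)
  have hM := PIrr_monic (A := RatFunc k) p hp5 (RatFunc.X ^ 2)
  have hM2 := PIrr_monic (A := k[X]) p hp5 (X ^ 2)
  have hmap : (X ^ p - X ^ 2 + C (X ^ 2) : k[X][X]).map (algebraMap k[X] (RatFunc k)) =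
      FP k p := by
    rw [FP]
    simp only [Polynomial.map_add, Polynomial.map_sub, Polynomial.map_pow, Polynomial.map_X,
      Polynomial.map_C, map_pow, RatFunc.algebraMap_X]
  have hirr : Irreducible (FP k p) := by
    rw [← hmap]
    exact (hM2.1.irreducible_iff_irreducible_map_fraction_map).1 (PIrr_irr p hp5 hodd)
  refine ⟨hM.1, hM.2, hirr, ?_⟩
  rw [separable_iff_derivative_ne_zero hirr]
  intro h0
  have h1 := congrArg (fun q => coeff q 1) h0
  have : CharP (RatFunc k) p := charP_of_injective_algebraMap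
    (algebraMap k (RatFunc k)).injective p
  have hp0 : ((p : ℕ) : RatFunc k) = 0 := CharP.cast_eq_zero _ p
  simp only [FP, derivative_add, derivative_sub, derivative_X_pow, derivative_C, add_zero,
    coeff_sub, coeff_C_mul, coeff_X_pow, coeff_zero, hp0, zero_mul, zero_sub, neg_eq_zero] at h1
  simp only [Nat.cast_ofNat, if_true, mul_one] at h1
  have h2 : ((2 : ℕ) : RatFunc k) = 0 := by exact_mod_cast h1
  have h3 := (CharP.cast_eq_zero_iff (RatFunc k) p 2).1 h2
  have h4 := Nat.le_of_dvd (by norm_num) h3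
  omega

end MP7b0bad.ApT
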