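import Pool.Agent.Work.MP_7b0bad_ag.ApT.Stmts
import Pool.Agent.Work.MP_7b0bad_ag.Bd.B03
import Pool.Agent.Work.MP_7b0bad_ag.AnT.ALab

set_option autoImplicit false

/-!
# Block ApT, item PLab (helper8): labels of the roots
-/

open Polynomial Pointwise

namespace MP7b0bad.ApT

open SnT (cc xx rp)

open AnT in
theorem prf_PLab (hDif : PDif) (hIrr : PIrr) : PLab := by
  intro p hp k _ hk h5 L _ _ hS A hA
  have hcL : CharP L p := by
    have : CharP (RatFunc k) p := charP_of_injective_algebraMap (algebraMap k (RatFunc k)).injective p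
    exact charP_of_injective_algebraMap (algebraMap (RatFunc k) L).injective p
  obtain ⟨hmon, hdeg, -, hsep⟩ := hIrr p k h5
  have hB : ((FP k p).rootSet L).ncard = p := by
    rw [← Nat.card_coe_set_eq, Nat.card_eq_fintype_card,
      Polynomial.card_rootSet_eq_natDegree hsep (IsSplittingField.splits L (FP k p)), hdeg]
  have hp1 : 1 < ((FP k p).rootSet L).ncard := by
    rw [hB]
    exact hp.out.one_lt
  have hfin : ((FP k p).rootSet L).Finite := Set.finite_of_ncard_pos (by omega)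
  obtain ⟨y₀, y₁, h0, h1, h01⟩ := (Set.one_lt_ncard_iff hfin).1 hp1
  have hD := hDif p k h5 L A hA
  have hd : y₁ - y₀ ≠ 0 := sub_ne_zero.2 (Ne.symm h01)
  have hex : ∀ y ∈ (FP k p).rootSet L, ∃ a : ZMod p, (y - y₀) / (y₁ - y₀) - ((a.val : ℕ) : L) ∈ A.nonunits := by
    intro y hy
    by_cases h : y = y₀
    · refine ⟨0, ?_⟩
      rw [h, sub_self, zero_div, ZMod.val_zero, Nat.cast_zero, sub_zero,
        ValuationSubring.mem_nonunits_iff, map_zero]
      exact zero_lt_one
    · obtain ⟨a, -, ha⟩ := (hD y₀ h0 y₁ h1 (Ne.symm h01)).2 y₀ h0 y hy h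
      exact ⟨a, ha⟩
  choose! lab hlab using hex
  have hres : ∀ y ∈ (FP k p).rootSet L, ∀ y' ∈ (FP k p).rootSet L,
      (y - y') / (y₁ - y₀) - (((lab y - lab y').val : ℕ) : L) ∈ A.nonunits := by
    intro y hy y' hy'
    have h2 := ALab_nsub (hlab y hy) (hlab y' hy')
    rw [ALab_sub]
    have e1 : (y - y') / (y₁ - y₀) - (((lab y).val : ℕ) - ((lab y').val : ℕ) : L) =
        (y - y₀) / (y₁ - y₀) - ((lab y).val : ℕ) -
          ((y' - y₀) / (y₁ - y₀) - ((lab y').val : ℕ)) := by ring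
    rw [e1]
    exact h2
  have hinj : ∀ y ∈ (FP k p).rootSet L, ∀ y' ∈ (FP k p).rootSet L, lab y = lab y' → y = y' := by
    intro y hy y' hy' hyy
    by_contra hne
    obtain ⟨a, ha0, ha⟩ := (hD y₀ h0 y₁ h1 (Ne.symm h01)).2 y' hy' y hy hne
    have h2 := hres y hy y' hy'
    rw [hyy, sub_self, ZMod.val_zero, Nat.cast_zero, sub_zero] at h2
    have h3 := ALab_nsub h2 ha
    rw [sub_sub_cancel] at h3
    exact ALab_unit hA a ha0 h3
  refine ⟨y₁ - y₀, lab, ⟨⟨y₀, h0, y₁, h1, Ne.symm h01, rfl⟩, hinj, ?_, hres⟩⟩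
  have himg : (lab '' (FP k p).rootSet L).ncard = p := by
    rw [Set.InjOn.ncard_image (fun y hy y' hy' h => hinj y hy y' hy' h), hB]
  have huniv : lab '' (FP k p).rootSet L = Set.univ := by
    refine Set.eq_of_subset_of_ncard_le (Set.subset_univ _) ?_ Set.finite_univ
    rw [himg, Set.ncard_univ, Nat.card_zmod]
  intro a
  have h2 : a ∈ lab '' (FP k p).rootSet L := by
    rw [huniv]
    exact Set.mem_univ a
  exact h2

end MP7b0bad.ApT
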