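import Pool.Agent.Work.MP_7b0bad_ag.ApT.Stmts
import Pool.Agent.Work.MP_7b0bad_ag.AnT.AOrb

set_option autoImplicit false

/-!
# Block ApT: orbits of the decomposition group
-/

open Polynomial Pointwise

namespace MP7b0bad.ApT

open MP7b0bad.SnT

theorem POrb_gen {k : Type} [Field k] [IsAlgClosed k] {L : Type} [Field L]
    [Algebra (RatFunc k) L] [FiniteDimensional (RatFunc k) L] [IsGalois (RatFunc k) L]
    (A : ValuationSubring L) (hA : AtInfty (k := k) A) (R : Set L) (hRfin : R.Finite) (q : ℕ)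
    (hq : 1 ≤ q) (hcard : R.ncard = q) (s : ℤ) (hs : IsCoprime (q : ℤ) s)
    (hval : ∀ y ∈ R, A.valuation y ^ q = A.valuation (xx k L) ^ s)
    (hst : ∀ σ : L ≃ₐ[RatFunc k] L, σ • A = A → ∀ y ∈ R, σ y ∈ R) :
    ∀ y ∈ R, ∀ y' ∈ R, ∃ σ : L ≃ₐ[RatFunc k] L, σ • A = A ∧ σ y = y' := by
  intro y hy y' hy'
  classical
  have hX : 1 < A.valuation (xx k L) := F3_X hA
  set O : Set L := {z | ∃ σ : L ≃ₐ[RatFunc k] L, σ • A = A ∧ σ y = z} with hO
  have hOs : O ⊆ R := by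
    rintro z ⟨σ, hσ, rfl⟩
    exact hst σ hσ y hy
  have hOfin : O.Finite := hRfin.subset hOs
  have hyO : y ∈ O := ⟨1, one_smul _ _, rfl⟩
  have hstab : ∀ σ : L ≃ₐ[RatFunc k] L, σ • A = A → ∀ z ∈ O, σ z ∈ O := by
    rintro σ hσ z ⟨τ, hτ, rfl⟩
    exact ⟨σ * τ, by rw [mul_smul, hτ, hσ], rfl⟩
  set F : Finset L := hOfin.toFinset with hF
  have hFO : ∀ z, z ∈ F ↔ z ∈ O := fun z => hOfin.mem_toFinset
  set γ : L := ∏ z ∈ F, z with hγ
  have hfix : ∀ σ : L ≃ₐ[RatFunc k] L, σ • A = A → σ γ = γ := by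
    intro σ hσ
    have himg : F.image σ = F := by
      apply Finset.eq_of_subset_of_card_le
      · intro z hz
        obtain ⟨w, hw, rfl⟩ := Finset.mem_image.1 hz
        exact (hFO _).2 (hstab σ hσ w ((hFO _).1 hw))
      · rw [Finset.card_image_of_injective _ σ.injective]
    calc σ γ = ∏ z ∈ F, σ z := by rw [hγ, map_prod]
      _ = ∏ z ∈ F.image σ, z := by
          rw [Finset.prod_image fun z _ w _ h => σ.injective h]
      _ = γ := by rw [himg]
  have hv : A.valuation γ ^ q = A.valuation (xx k L) ^ (s * (F.card : ℤ)) := by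
    rw [hγ, map_prod, ← Finset.prod_pow,
      Finset.prod_congr rfl (fun z hz => hval z (hOs ((hFO z).1 hz))), Finset.prod_const,
      zpow_mul, zpow_natCast]
  obtain ⟨j, hj⟩ := SOrb_val A hA γ hfix q hq _ hv
  rw [hj, ← zpow_natCast, ← zpow_mul] at hv
  have hj2 := SOrb_inj hX hv
  have hFpos : 0 < F.card := Finset.card_pos.2 ⟨y, (hFO y).2 hyO⟩
  have hdvd : (q : ℤ) ∣ (F.card : ℤ) :=
    hs.dvd_of_dvd_mul_left ⟨j, by rw [← hj2]; ring⟩
  have hle : q ≤ F.card := Nat.le_of_dvd hFpos (Int.natCast_dvd_natCast.1 hdvd)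
  have hcard' : R.ncard ≤ O.ncard := by
    rw [hcard, Set.ncard_eq_toFinset_card O hOfin]
    exact hle
  have hOR : O = R := Set.eq_of_subset_of_ncard_le hOs hcard' hRfin
  have hy'O : y' ∈ O := by rw [hOR]; exact hy'
  obtain ⟨σ, h1, h2⟩ := hy'O
  exact ⟨σ, h1, h2⟩

theorem prf_POrb (hVal : PVal) (hIrr : PIrr) : POrb := by
  intro p hp k _ _ _ h5 L _ _ _ _ _ A hA
  obtain ⟨hmon, hdeg, hirr, hsep⟩ := hIrr p k h5
  have hcard : ((FP k p).rootSet L).ncard = p := by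
    rw [← Nat.card_coe_set_eq, Nat.card_eq_fintype_card,
      Polynomial.card_rootSet_eq_natDegree hsep (IsSplittingField.splits L (FP k p)), hdeg]
  have hcop : IsCoprime (p : ℤ) 2 := by
    have h2 : Nat.Coprime p 2 :=
      (Nat.coprime_primes hp.out Nat.prime_two).2 (by omega)
    exact_mod_cast Nat.isCoprime_iff_coprime.2 h2
  refine POrb_gen A hA ((FP k p).rootSet L) ((FP k p).rootSet_finite L) p
      hp.out.one_lt.le hcard 2 hcop ?_ ?_
  · intro y hy
    rw [(hVal p k h5 L A hA y hy).2]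
    exact (zpow_natCast _ 2).symm
  · intro σ hσ y hy
    exact rp_mem _ σ y hy

end MP7b0bad.ApT
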