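import Pool.Agent.Work.MP_7b0bad_ag.ApT.Stmts
import Pool.Agent.Work.MP_7b0bad_ag.SnT.SOrb
import Pool.Agent.Work.MP_7b0bad_ag.SnT.SCharE

/-!
# Block ApT, item POrd: the order of the decomposition group
-/

set_option autoImplicit false

open Polynomial Pointwise

namespace MP7b0bad.ApT

open SnT (cc xx rp)

theorem prf_POrd (hDif : PDif) (hIrr : PIrr) : POrd := by
  intro p _ k _ _ _ hp5 L _ _ _ _ _ A hA
  have hX : 1 < A.valuation (xx k L) := F3_X hA
  have hX0 : A.valuation (xx k L) ≠ 0 := (zero_lt_one.trans hX).ne'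
  obtain ⟨-, hdeg, -, hsep⟩ := hIrr p k hp5
  -- two roots
  obtain ⟨y, y', hy, hy', hne⟩ : ∃ y y', y ∈ (FP k p).rootSet L ∧ y' ∈ (FP k p).rootSet L ∧
      y' ≠ y := by
    have hcard : Fintype.card ((FP k p).rootSet L) = p := by
      rw [card_rootSet_eq_natDegree hsep (IsSplittingField.splits L (FP k p)), hdeg]
    obtain ⟨a, b, hab⟩ := Fintype.one_lt_card_iff.1
      (show 1 < Fintype.card ((FP k p).rootSet L) by omega)
    exact ⟨a, b, a.2, b.2, fun h => hab (Subtype.ext h.symm)⟩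
  have hval := (hDif p k hp5 L A hA y hy y' hy' hne).1
  set d : L := y' - y with hd
  have hd0 : d ≠ 0 := sub_ne_zero.2 hne
  set m : ℕ := p * (p - 1) with hm
  have hm1 : 1 ≤ m := Nat.mul_pos (by omega) (by omega)
  have hvm : A.valuation d ^ m = A.valuation (xx k L) ^ (2 : ℤ) := by
    rw [hval]
    exact (zpow_natCast (A.valuation (xx k L)) 2).symm
  have hr : A.valuation d ^ m =
      A.valuation (algebraMap (RatFunc k) L (RatFunc.X ^ 2)) := by
    rw [map_pow, map_pow]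
    exact hval
  let _ : Fintype (A.decompositionSubgroup (RatFunc k)) := Fintype.ofFinite _
  set γ : L := ∏ σ : A.decompositionSubgroup (RatFunc k), (σ : L ≃ₐ[RatFunc k] L) d with hγ
  have hfix : ∀ σ : L ≃ₐ[RatFunc k] L, σ • A = A → σ γ = γ := by
    intro σ hσ
    rw [hγ, map_prod]
    exact Fintype.prod_equiv (Equiv.mulLeft (⟨σ, hσ⟩ : A.decompositionSubgroup (RatFunc k)))
      (fun τ => σ ((τ : L ≃ₐ[RatFunc k] L) d)) (fun τ => (τ : L ≃ₐ[RatFunc k] L) d)
      fun τ => rfl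
  have hvσ : ∀ σ : A.decompositionSubgroup (RatFunc k),
      A.valuation ((σ : L ≃ₐ[RatFunc k] L) d) = A.valuation d := by
    intro σ
    have h1 := SnT.SCharE_w A (σ : L ≃ₐ[RatFunc k] L) σ.2 d hd0 m hm1 _ hr
    rw [map_div₀] at h1
    exact (div_eq_one_iff_eq ((Valuation.ne_zero_iff _).2 hd0)).1 h1
  have hγv : A.valuation γ = A.valuation d ^ Nat.card (A.decompositionSubgroup (RatFunc k)) := by
    rw [hγ, map_prod, Finset.prod_congr rfl fun σ _ => hvσ σ, Finset.prod_const,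
      Finset.card_univ, Nat.card_eq_fintype_card]
  set N : ℕ := Nat.card (A.decompositionSubgroup (RatFunc k)) with hN
  have hγm : A.valuation γ ^ m = A.valuation (xx k L) ^ ((2 : ℤ) * N) := by
    rw [hγv, ← pow_mul, mul_comm, pow_mul, hvm, zpow_mul, zpow_natCast]
  obtain ⟨j, hj⟩ := SnT.SOrb_val A hA γ hfix m hm1 _ hγm
  rw [hj, ← zpow_natCast, ← zpow_mul] at hγm
  have h2 := SnT.SOrb_inj hX hγm
  have h3 : (m : ℤ) ∣ ((2 * N : ℕ) : ℤ) := by
    refine ⟨j, ?_⟩
    push_cast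
    linarith [mul_comm j (m : ℤ)]
  exact Int.natCast_dvd_natCast.1 h3

end MP7b0bad.ApT
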