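import Pool.Agent.Work.MP_7b0bad_ag.ApT.Stmts

set_option autoImplicit false
set_option linter.unusedSimpArgs false

/-!
# Block ApT, item PSer: the roots of `Y ^ p - Y ^ 2 + x ^ 2` in `k[[x]]`

Unit roots by Hensel's lemma; the small roots are `x / v` with
`v ^ p - v ^ (p - 2) + x ^ (p - 2) = 0`, `v(0) = 1` or `-1`.
-/

open Polynomial

namespace MP7b0bad.ApT

/-- Hensel's lemma for power series over a field -/
theorem PSer_hensel {k : Type} [Field k] (f : (PowerSeries k)[X]) (hf : f.Monic) (c : k)
    (h0 : PowerSeries.constantCoeff (f.eval (PowerSeries.C c)) = 0)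
    (h1 : PowerSeries.constantCoeff (f.derivative.eval (PowerSeries.C c)) ≠ 0) :
    ∃ u : PowerSeries k, f.eval u = 0 ∧ PowerSeries.constantCoeff u = c := by
  have hc := B5a_complete k
  have hh : HenselianRing (PowerSeries k) (Ideal.span {(PowerSeries.X : PowerSeries k)}) :=
    inferInstance
  obtain ⟨a, ha, ha'⟩ := hh.is_henselian f hf (PowerSeries.C c)
    (by rw [Ideal.mem_span_singleton, PowerSeries.X_dvd_iff]; exact h0)
    (by
      refine IsUnit.map _ ?_
      rw [PowerSeries.isUnit_iff_constantCoeff]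
      exact isUnit_iff_ne_zero.2 h1)
  refine ⟨a, ha, ?_⟩
  rw [Ideal.mem_span_singleton, PowerSeries.X_dvd_iff, map_sub, PowerSeries.constantCoeff_C,
    sub_eq_zero] at ha'
  exact ha'

/-- the polynomial of the cover over power series -/
noncomputable def PSer_F (k : Type) [Field k] (p : ℕ) : (PowerSeries k)[X] :=
  X ^ p - X ^ 2 + C ((PowerSeries.X : PowerSeries k) ^ 2)

theorem PSer_F_eval (k : Type) [Field k] (p : ℕ) (u : PowerSeries k) :
    (PSer_F k p).eval u = u ^ p - u ^ 2 + PowerSeries.X ^ 2 := by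
  simp [PSer_F]

theorem PSer_F_deg (k : Type) [Field k] (p : ℕ) (hp : 5 ≤ p) :
    (PSer_F k p).Monic ∧ (PSer_F k p).natDegree = p := by
  have h : PSer_F k p = X ^ p + (C ((PowerSeries.X : PowerSeries k) ^ 2) - X ^ 2) := by
    rw [PSer_F]; ring
  have hd : (C ((PowerSeries.X : PowerSeries k) ^ 2) - X ^ 2 : (PowerSeries k)[X]).degree <
      (p : WithBot ℕ) := by
    refine lt_of_le_of_lt (degree_sub_le _ _) (max_lt ?_ ?_)
    · refine lt_of_le_of_lt degree_C_le ?_
      exact_mod_cast (by omega : 0 < p)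
    · refine lt_of_le_of_lt (degree_X_pow_le _) ?_
      exact_mod_cast (by omega : 2 < p)
  have hm : (X ^ p + (C ((PowerSeries.X : PowerSeries k) ^ 2) - X ^ 2) :
      (PowerSeries k)[X]).Monic := monic_X_pow_add hd
  constructor
  · rw [h]; exact hm
  · rw [h]
    have := degree_add_eq_left_of_degree_lt (p := (X ^ p : (PowerSeries k)[X]))
      (q := C ((PowerSeries.X : PowerSeries k) ^ 2) - X ^ 2) (by rw [degree_X_pow]; exact hd)
    rw [degree_X_pow] at this
    exact natDegree_eq_of_degree_eq_some this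

/-- two different roots with the same constant term: the constant term is zero and
`(u - v) ^ (p - 1) = u + v` -/
theorem PSer_two {k : Type} [Field k] {p : ℕ} [Fact p.Prime] [CharP k p] (hp : 5 ≤ p)
    {u v : PowerSeries k} (hu : u ^ p - u ^ 2 + PowerSeries.X ^ 2 = 0)
    (hv : v ^ p - v ^ 2 + PowerSeries.X ^ 2 = 0) (huv : u ≠ v) : (u - v) ^ (p - 1) = u + v := by
  have hP : CharP (PowerSeries k) p := by
    have : CharP k p := inferInstance
    exact charP_of_injective_ringHom (f := (PowerSeries.C : k →+* PowerSeries k))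
      PowerSeries.C_injective p
  have h1 : (u - v) ^ p = u ^ p - v ^ p := sub_pow_char u v
  have h2 : (u - v) * (u - v) ^ (p - 1) = (u - v) * (u + v) := by
    rw [← pow_succ', Nat.sub_add_cancel (by omega), h1]
    linear_combination hu - hv
  exact mul_left_cancel₀ (sub_ne_zero.2 huv) h2

theorem PSer_two_ne {k : Type} [Field k] {p : ℕ} [Fact p.Prime] [CharP k p] (hp : 5 ≤ p) :
    (2 : k) ≠ 0 := by
  intro h
  have : ((2 : ℕ) : k) = 0 := by exact_mod_cast h
  rw [CharP.cast_eq_zero_iff k p] at this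
  have := Nat.le_of_dvd (by norm_num) this
  omega

/-- the constant term of two different roots with the same constant term -/
theorem PSer_cc {k : Type} [Field k] {p : ℕ} [Fact p.Prime] [CharP k p] (hp : 5 ≤ p)
    {u v : PowerSeries k} (hu : u ^ p - u ^ 2 + PowerSeries.X ^ 2 = 0)
    (hv : v ^ p - v ^ 2 + PowerSeries.X ^ 2 = 0) (huv : u ≠ v)
    (hc : PowerSeries.constantCoeff u = PowerSeries.constantCoeff v) :
    PowerSeries.constantCoeff u = 0 ∧ PowerSeries.coeff 1 u = - PowerSeries.coeff 1 v := by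
  have h := PSer_two hp hu hv huv
  have hd : PowerSeries.X ∣ u - v := by
    rw [PowerSeries.X_dvd_iff, map_sub, hc, sub_self]
  obtain ⟨w, hw⟩ := hd
  have h2 : u + v = PowerSeries.X ^ 2 * (PowerSeries.X ^ (p - 3) * w ^ (p - 1)) := by
    rw [← h, hw, mul_pow, ← mul_assoc, ← pow_add]
    congr 2
    omega
  have e0 := congrArg (PowerSeries.constantCoeff) h2
  have e1 := congrArg (PowerSeries.coeff 1) h2
  constructor
  · rw [map_add, ← hc, map_mul, map_pow, PowerSeries.constantCoeff_X] at e0
    have : (2 : k) * PowerSeries.constantCoeff u = 0 := by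
      rw [two_mul, e0]; ring
    rcases mul_eq_zero.1 this with h3 | h3
    · exact absurd h3 (PSer_two_ne (p := p) hp)
    · exact h3
  · rw [map_add, PowerSeries.coeff_X_pow_mul' , if_neg (by norm_num)] at e1
    exact eq_neg_of_add_eq_zero_left e1

/-- a root with constant term zero has linear term `1` or `-1` -/
theorem PSer_small {k : Type} [Field k] {p : ℕ} (hp : 5 ≤ p)
    {u : PowerSeries k} (hu : u ^ p - u ^ 2 + PowerSeries.X ^ 2 = 0)
    (hc : PowerSeries.constantCoeff u = 0) :
    PowerSeries.coeff 1 u = 1 ∨ PowerSeries.coeff 1 u = -1 := by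
  obtain ⟨w, hw⟩ := PowerSeries.X_dvd_iff.2 hc
  have h1 : PowerSeries.coeff 1 u = PowerSeries.constantCoeff w := by
    rw [hw]
    have := PowerSeries.coeff_succ_X_mul 0 w
    rw [zero_add, PowerSeries.coeff_zero_eq_constantCoeff] at this
    exact this
  have h2 : (PowerSeries.X : PowerSeries k) ^ 2 *
      (PowerSeries.X ^ (p - 2) * w ^ p - w ^ 2 + 1) = 0 := by
    rw [← hu, hw]
    have : (PowerSeries.X : PowerSeries k) ^ p = PowerSeries.X ^ 2 * PowerSeries.X ^ (p - 2) := by
      rw [← pow_add]; congr 1; omega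
    rw [mul_pow, mul_pow, this]
    ring
  have h3 : (PowerSeries.X : PowerSeries k) ^ (p - 2) * w ^ p - w ^ 2 + 1 = 0 := by
    rcases mul_eq_zero.1 h2 with h | h
    · exact absurd h (pow_ne_zero _ PowerSeries.X_ne_zero)
    · exact h
  have h4 := congrArg (PowerSeries.constantCoeff) h3
  rw [map_add, map_sub, map_mul, map_pow, PowerSeries.constantCoeff_X, zero_pow (by omega),
    zero_mul, map_pow, map_one, map_zero] at h4
  rw [h1]
  have h5 : (PowerSeries.constantCoeff w - 1) * (PowerSeries.constantCoeff w + 1) = 0 := by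
    linear_combination -h4
  rcases mul_eq_zero.1 h5 with h | h
  · left; linear_combination h
  · right; linear_combination h

/-- the two small roots -/
theorem PSer_smallRoot {k : Type} [Field k] {p : ℕ} [Fact p.Prime] [CharP k p] (hp : 5 ≤ p)
    (e : k) (he : e = 1 ∨ e = -1) : ∃ u : PowerSeries k,
    u ^ p - u ^ 2 + PowerSeries.X ^ 2 = 0 ∧ PowerSeries.constantCoeff u = 0 ∧
      PowerSeries.coeff 1 u = e := by
  have hodd : Odd p := (Fact.out : p.Prime).odd_of_ne_two (by omega)
  obtain ⟨m, hm⟩ := hodd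
  have he2 : e ^ 2 = 1 := by rcases he with h | h <;> rw [h] <;> norm_num
  have hee : ∀ j, e ^ (2 * j) = 1 := fun j => by rw [pow_mul, he2, one_pow]
  have hne : e ≠ 0 := by
    intro h0; rw [h0] at he2; norm_num at he2
  set G : (PowerSeries k)[X] := X ^ p + (C ((PowerSeries.X : PowerSeries k) ^ (p - 2)) -
    X ^ (p - 2)) with hG
  have hd : (C ((PowerSeries.X : PowerSeries k) ^ (p - 2)) - X ^ (p - 2) :
      (PowerSeries k)[X]).degree < (p : WithBot ℕ) := by
    refine lt_of_le_of_lt (degree_sub_le _ _) (max_lt ?_ ?_)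
    · refine lt_of_le_of_lt degree_C_le ?_
      exact_mod_cast (by omega : 0 < p)
    · refine lt_of_le_of_lt (degree_X_pow_le _) ?_
      exact_mod_cast (by omega : p - 2 < p)
  have hmon : G.Monic := monic_X_pow_add hd
  have hGe : ∀ u : PowerSeries k, G.eval u = u ^ p + (PowerSeries.X ^ (p - 2) - u ^ (p - 2)) := by
    intro u; simp [hG]
  have hGd : ∀ u : PowerSeries k, G.derivative.eval u =
      (p : PowerSeries k) * u ^ (p - 1) - ((p - 2 : ℕ) : PowerSeries k) * u ^ (p - 2 - 1) := by
    intro u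
    rw [hG, derivative_add, derivative_X_pow, derivative_sub, derivative_C, derivative_X_pow,
      eval_add, eval_sub, eval_zero, eval_mul, eval_mul, eval_pow, eval_pow, eval_X]
    simp only [eval_natCast, eval_C, map_natCast]
    ring
  obtain ⟨v, hv, hvc⟩ := PSer_hensel G hmon e
    (by
      rw [hGe, map_add, map_sub, map_pow, map_pow, map_pow, PowerSeries.constantCoeff_C,
        PowerSeries.constantCoeff_X, zero_pow (by omega)]
      have h1 : e ^ p = e := by rw [hm, pow_succ, hee, one_mul]
      have h2 : e ^ (p - 2) = e := by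
        have : p - 2 = 2 * (m - 1) + 1 := by omega
        rw [this, pow_succ, hee, one_mul]
      rw [h1, h2]; ring)
    (by
      rw [hGd, map_sub, map_mul, map_mul, map_pow, map_pow, PowerSeries.constantCoeff_C,
        map_natCast, map_natCast, CharP.cast_eq_zero, zero_mul, zero_sub]
      have h3 : ((p - 2 : ℕ) : k) = -2 := by
        rw [Nat.cast_sub (by omega), CharP.cast_eq_zero]; norm_num
      rw [h3]
      have := PSer_two_ne (k := k) (p := p) hp
      have h4 : e ^ (p - 2 - 1) ≠ 0 := pow_ne_zero _ hne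
      exact neg_ne_zero.2 (mul_ne_zero (neg_ne_zero.2 this) h4))
  have hvu : v * v⁻¹ = 1 := PowerSeries.mul_inv_cancel v (by rw [hvc]; exact hne)
  rw [hGe] at hv
  refine ⟨PowerSeries.X * v⁻¹, ?_, ?_, ?_⟩
  · have e1 : (PowerSeries.X : PowerSeries k) ^ p = PowerSeries.X ^ 2 * PowerSeries.X ^ (p - 2) := by
      rw [← pow_add]; congr 1; omega
    have e2 : v ^ p = v ^ 2 * v ^ (p - 2) := by
      rw [← pow_add]; congr 1; omega
    have e3 : (v⁻¹) ^ p = (v⁻¹) ^ 2 * (v⁻¹) ^ (p - 2) := by
      rw [← pow_add]; congr 1; omega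
    have e4 : v ^ (p - 2) * (v⁻¹) ^ (p - 2) = 1 := by rw [← mul_pow, hvu, one_pow]
    have e5 : v ^ 2 * (v⁻¹) ^ 2 = 1 := by rw [← mul_pow, hvu, one_pow]
    have e6 : (PowerSeries.X : PowerSeries k) ^ (p - 2) = v ^ (p - 2) - v ^ p := by
      linear_combination hv
    rw [mul_pow, mul_pow, e1, e3, e6, e2]
    linear_combination (PowerSeries.X ^ 2 * (v⁻¹) ^ 2 - PowerSeries.X ^ 2 * v ^ 2 * (v⁻¹) ^ 2) * e4
      - PowerSeries.X ^ 2 * e5
  · rw [map_mul, PowerSeries.constantCoeff_X, zero_mul]
  · have := PowerSeries.coeff_succ_X_mul 0 (v⁻¹)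
    rw [zero_add, PowerSeries.coeff_zero_eq_constantCoeff] at this
    rw [this, PowerSeries.constantCoeff_inv, hvc]
    rcases he with h | h <;> rw [h] <;> norm_num

/-- the unit roots -/
theorem PSer_unitRoot {k : Type} [Field k] {p : ℕ} [Fact p.Prime] [CharP k p] (hp : 5 ≤ p)
    (c : k) (hc : c ^ (p - 2) = 1) : ∃ u : PowerSeries k,
    u ^ p - u ^ 2 + PowerSeries.X ^ 2 = 0 ∧ PowerSeries.constantCoeff u = c := by
  have hne : c ≠ 0 := by
    intro h0; rw [h0, zero_pow (by omega)] at hc; exact zero_ne_one hc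
  have hcp : c ^ p = c ^ 2 := by
    have : c ^ p = c ^ 2 * c ^ (p - 2) := by rw [← pow_add]; congr 1; omega
    rw [this, hc, mul_one]
  obtain ⟨u, hu, huc⟩ := PSer_hensel (PSer_F k p) (PSer_F_deg k p hp).1 c
    (by
      rw [PSer_F_eval, map_add, map_sub, map_pow, map_pow, map_pow, PowerSeries.constantCoeff_C,
        PowerSeries.constantCoeff_X, hcp]
      ring)
    (by
      have : (PSer_F k p).derivative.eval (PowerSeries.C c) =
          (p : PowerSeries k) * PowerSeries.C c ^ (p - 1) - 2 * PowerSeries.C c := by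
        rw [PSer_F, derivative_add, derivative_sub, derivative_X_pow, derivative_C,
          derivative_X_pow, eval_add, eval_sub, eval_zero, eval_mul, eval_mul, eval_pow, eval_pow,
          eval_X]
        simp only [eval_natCast, eval_C, map_natCast, Nat.cast_ofNat]
        ring
      rw [this, map_sub, map_mul, map_natCast, CharP.cast_eq_zero, zero_mul, zero_sub, map_mul,
        PowerSeries.constantCoeff_C]
      have h2 := PSer_two_ne (k := k) (p := p) hp
      have h3 : PowerSeries.constantCoeff (2 : PowerSeries k) = (2 : k) := by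
        exact map_ofNat _ 2
      rw [h3]
      exact neg_ne_zero.2 (mul_ne_zero h2 hne))
  exact ⟨u, by rw [← PSer_F_eval]; exact hu, huc⟩

theorem prf_PSer : PSer := by
  classical
  intro p _ k _ _ _ hp
  obtain ⟨u0, hu0, hu0c, hu01⟩ := PSer_smallRoot (k := k) hp 1 (Or.inl rfl)
  obtain ⟨u1, hu1, hu1c, hu11⟩ := PSer_smallRoot (k := k) hp (-1) (Or.inr rfl)
  have h2 := PSer_two_ne (k := k) (p := p) hp
  have h01 : u0 ≠ u1 := by
    intro h
    rw [h, hu11] at hu01
    apply h2
    linear_combination -hu01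
  -- the unit constants
  set Q : k[X] := X ^ (p - 2) - C 1 with hQ
  have hsep : Q.Separable := by
    refine separable_X_pow_sub_C (1 : k) ?_ one_ne_zero
    have h3 : ((p - 2 : ℕ) : k) = -2 := by
      rw [Nat.cast_sub (by omega), CharP.cast_eq_zero]; norm_num
    rw [h3]
    exact neg_ne_zero.2 h2
  have hQdeg : Q.natDegree = p - 2 := natDegree_X_pow_sub_C
  have hQ0 : Q ≠ 0 := by
    intro h
    rw [h, natDegree_zero] at hQdeg
    omega
  have hcard : Q.roots.toFinset.card = p - 2 := by
    rw [Multiset.toFinset_card_of_nodup (nodup_roots hsep)]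
    rw [← (IsAlgClosed.splits Q).natDegree_eq_card_roots, hQdeg]
  have hT : ∀ c ∈ Q.roots.toFinset, c ^ (p - 2) = 1 := by
    intro c hc
    rw [Multiset.mem_toFinset, mem_roots hQ0, IsRoot.def, hQ] at hc
    simp only [eval_sub, eval_pow, eval_X, eval_C] at hc
    linear_combination hc
  have hsol : ∀ c : k, ∃ u : PowerSeries k, c ∈ Q.roots.toFinset →
      u ^ p - u ^ 2 + PowerSeries.X ^ 2 = 0 ∧ PowerSeries.constantCoeff u = c := by
    intro c
    by_cases hc : c ∈ Q.roots.toFinset
    · obtain ⟨u, hu⟩ := PSer_unitRoot hp c (hT c hc)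
      exact ⟨u, fun _ => hu⟩
    · exact ⟨0, fun h => absurd h hc⟩
  choose g hg using hsol
  set S : Finset (PowerSeries k) := insert u0 (insert u1 (Q.roots.toFinset.image g)) with hS
  have hnz : ∀ c ∈ Q.roots.toFinset, c ≠ 0 := by
    intro c hc h0
    have := hT c hc
    rw [h0, zero_pow (by omega)] at this
    exact zero_ne_one this
  have hni : ∀ u : PowerSeries k, PowerSeries.constantCoeff u = 0 →
      u ∉ Q.roots.toFinset.image g := by
    intro u hu h
    obtain ⟨c, hc, hcu⟩ := Finset.mem_image.1 h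
    apply hnz c hc
    rw [← (hg c hc).2, hcu, hu]
  have hScard : S.card = p := by
    rw [hS, Finset.card_insert_of_notMem, Finset.card_insert_of_notMem (hni u1 hu1c),
      Finset.card_image_of_injOn, hcard]
    · omega
    · intro c hc c' hc' h
      rw [← (hg c hc).2, ← (hg c' hc').2, h]
    · rw [Finset.mem_insert, not_or]
      exact ⟨h01, hni u0 hu0c⟩
  have hSroot : ∀ u ∈ S, u ^ p - u ^ 2 + PowerSeries.X ^ 2 = 0 := by
    intro u hu
    rw [hS, Finset.mem_insert, Finset.mem_insert, Finset.mem_image] at hu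
    rcases hu with h | h | ⟨c, hc, h⟩
    · rw [h]; exact hu0
    · rw [h]; exact hu1
    · rw [← h]; exact (hg c hc).1
  have hF0 : PSer_F k p ≠ 0 := (PSer_F_deg k p hp).1.ne_zero
  -- the roots
  have hle : S.val ≤ (PSer_F k p).roots := by
    rw [Finset.val_le_iff_val_subset]
    intro u hu
    rw [mem_roots hF0, IsRoot.def, PSer_F_eval]
    exact hSroot u hu
  have hroots : (PSer_F k p).roots = S.val := by
    symm
    refine Multiset.eq_of_le_of_card_le hle ?_
    refine (card_roots' _).trans ?_
    rw [(PSer_F_deg k p hp).2]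
    exact hScard.ge
  have hprod : PSer_F k p = ∏ u ∈ S, (X - C u) := by
    have := prod_multiset_X_sub_C_of_monic_of_roots_card_eq (PSer_F_deg k p hp).1
      (by rw [hroots, (PSer_F_deg k p hp).2]; exact hScard)
    rw [← this, hroots]
    rfl
  let E : Fin p ≃ S := (S.equivFinOfCardEq hScard).symm
  refine ⟨fun i => (E i : PowerSeries k), ?_, ?_, ?_⟩
  · exact Subtype.val_injective.comp E.injective
  · have h5 : ∏ i, (X - C ((E i : PowerSeries k)) : (PowerSeries k)[X]) = ∏ u : S, (X - C (u : PowerSeries k)) :=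
      Equiv.prod_comp E (fun u : S => (X - C (u : PowerSeries k) : (PowerSeries k)[X]))
    rw [h5, Finset.prod_coe_sort S (fun u => (X - C u : (PowerSeries k)[X])), ← hprod]
    rfl
  · have m0 : u0 ∈ S := by rw [hS]; exact Finset.mem_insert_self _ _
    have m1 : u1 ∈ S := by
      rw [hS]; exact Finset.mem_insert_of_mem (Finset.mem_insert_self _ _)
    have hE0 : (E (E.symm ⟨u0, m0⟩) : PowerSeries k) = u0 := by rw [E.apply_symm_apply]
    have hE1 : (E (E.symm ⟨u1, m1⟩) : PowerSeries k) = u1 := by rw [E.apply_symm_apply]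
    have uniq : ∀ i : Fin p, PowerSeries.constantCoeff (E i : PowerSeries k) = 0 →
        (PowerSeries.coeff 1 (E i : PowerSeries k) = 1 ∧ i = E.symm ⟨u0, m0⟩) ∨
        (PowerSeries.coeff 1 (E i : PowerSeries k) = -1 ∧ i = E.symm ⟨u1, m1⟩) := by
      intro i hi
      have hr := hSroot _ (E i).2
      rcases PSer_small hp hr hi with h | h
      · left
        refine ⟨h, ?_⟩
        rw [Equiv.eq_symm_apply]
        apply Subtype.ext
        by_contra hne
        have := (PSer_cc hp hr hu0 hne (by rw [hi, hu0c])).2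
        rw [h, hu01] at this
        apply h2
        linear_combination this
      · right
        refine ⟨h, ?_⟩
        rw [Equiv.eq_symm_apply]
        apply Subtype.ext
        by_contra hne
        have := (PSer_cc hp hr hu1 hne (by rw [hi, hu1c])).2
        rw [h, hu11] at this
        apply h2
        linear_combination -this
    refine ⟨E.symm ⟨u0, m0⟩, E.symm ⟨u1, m1⟩, ?_, ?_, ?_, ?_, ?_, ?_⟩
    · intro h
      apply h01
      have := congrArg (fun z => (E z : PowerSeries k)) h
      simp only [Equiv.apply_symm_apply] at this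
      exact this
    · show PowerSeries.constantCoeff (E (E.symm ⟨u0, m0⟩) : PowerSeries k) = 0
      rw [hE0]; exact hu0c
    · show PowerSeries.constantCoeff (E (E.symm ⟨u1, m1⟩) : PowerSeries k) = 0
      rw [hE1]; exact hu1c
    · show PowerSeries.coeff 1 (E (E.symm ⟨u0, m0⟩) : PowerSeries k) = 1
      rw [hE0]; exact hu01
    · show PowerSeries.coeff 1 (E (E.symm ⟨u1, m1⟩) : PowerSeries k) = -1
      rw [hE1]; exact hu11
    · intro i j hij hne
      have hi := hSroot _ (E i).2
      have hj := hSroot _ (E j).2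
      have hne' : (E i : PowerSeries k) ≠ E j := by
        intro h
        exact hne (E.injective (Subtype.ext h))
      have hc := PSer_cc hp hi hj hne' hij
      have ci := hc.1
      have cj : PowerSeries.constantCoeff (E j : PowerSeries k) = 0 := by
        rw [← ci]; exact hij.symm
      rcases uniq i ci with ⟨_, h⟩ | ⟨_, h⟩ <;> rcases uniq j cj with ⟨_, h'⟩ | ⟨_, h'⟩
      · exact absurd (h.trans h'.symm) hne
      · exact Or.inl ⟨h, h'⟩
      · exact Or.inr ⟨h, h'⟩
      · exact absurd (h.trans h'.symm) hne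

end MP7b0bad.ApT
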