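import Pool.Agent.Work.MP_7b0bad_ag.ApT.Stmts
import Pool.Agent.Work.MP_7b0bad_ag.AnT.AUnr

/-!
# MP_7b0bad, project ApT: finite places are unramified
-/

set_option autoImplicit false

open Polynomial Pointwise

namespace MP7b0bad.ApT

open SnT (cc xx rp)

/-- a double root of the reduction is `0`, and `x` reduces to `0` -/
theorem PUnr_double {p : ℕ} (hp : 5 ≤ p) {κ : Type} [Field κ] [CharP κ p] (x c : κ)
    (h0 : (X ^ p + (C (x ^ 2) - X ^ 2) : κ[X]).eval c = 0)
    (h1 : (derivative (X ^ p + (C (x ^ 2) - X ^ 2) : κ[X])).eval c = 0) : c = 0 ∧ x = 0 := by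
  simp only [eval_sub, eval_add, eval_pow, eval_X, eval_C] at h0
  simp only [derivative_sub, derivative_add, derivative_X_pow, derivative_C,
    eval_sub, eval_add, eval_mul, eval_pow, eval_X, eval_C, eval_zero] at h1
  have hpz : ((p : ℕ) : κ) = 0 := CharP.cast_eq_zero κ p
  have h2 : ((2 : ℕ) : κ) ≠ 0 := by
    intro h
    have := (CharP.cast_eq_zero_iff κ p 2).1 h
    have := Nat.le_of_dvd (by omega) this
    omega
  have hc : c = 0 := by
    rw [hpz] at h1
    have h3 : ((2 : ℕ) : κ) * c = 0 := by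
      have : (2 : ℕ) - 1 = 1 := rfl
      rw [this, pow_one] at h1
      linear_combination -h1
    rcases mul_eq_zero.1 h3 with h | h
    · exact absurd h h2
    · exact h
  refine ⟨hc, ?_⟩
  rw [hc, zero_pow (by omega), zero_pow two_ne_zero, zero_add, sub_zero] at h0
  exact pow_eq_zero_iff two_ne_zero |>.1 h0

/-- the relation between two different roots -/
theorem PUnr_rel {p : ℕ} (hpp : p.Prime) {L : Type} [Field L] [CharP L p] {x y y' : L}
    (h : y ^ p + x ^ 2 = y ^ 2) (h' : y' ^ p + x ^ 2 = y' ^ 2) (hne : y' ≠ y) :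
    (y - y') ^ (p - 1) = y + y' := by
  have : Fact p.Prime := ⟨hpp⟩
  have h1 : (y - y') ^ p = y ^ p - y' ^ p := sub_pow_expChar y y'
  have h2 : (y - y') ^ p = (y - y') * (y - y') ^ (p - 1) := by
    rw [← pow_succ', Nat.sub_add_cancel hpp.one_le]
  have h3 : (y - y') * (y - y') ^ (p - 1) = (y - y') * (y + y') := by
    rw [← h2, h1]
    linear_combination h - h'
  exact mul_left_cancel₀ (sub_ne_zero.2 hne.symm) h3

theorem prf_PUnr : PUnr := by
  intro p hpf k _ _ hp L _ _ _ A hk hx
  have hpp : p.Prime := hpf.out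
  let cA : k →+* A := (cc k L).codRestrict A.toSubring hk
  let xA : A := ⟨xx k L, hx⟩
  let FR : A[X] := X ^ p + (C (xA ^ 2) - X ^ 2)
  have hp0 : 0 < p := by omega
  have hx0 : xx k L ≠ 0 := by
    intro h
    exact RatFunc.X_ne_zero ((map_eq_zero_iff _ (algebraMap (RatFunc k) L).injective).1 h)
  have hFm : FR.Monic := by
    refine monic_X_pow_add ?_
    refine (degree_sub_le _ _).trans_lt (max_lt ?_ ?_)
    · exact degree_C_le.trans_lt (by exact_mod_cast hp0)
    · rw [degree_X_pow]
      exact_mod_cast (by omega : 2 < p)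
  have hev : ∀ y : L, y ∈ (FP k p).rootSet L → FR.eval₂ (algebraMap A L) y = 0 := by
    intro y hy
    have h := root_eq hy
    have h2 : (algebraMap A L) xA = xx k L := rfl
    simp only [FR, eval₂_sub, eval₂_C, eval₂_add, eval₂_pow, eval₂_X, map_pow, h2]
    linear_combination h
  have hmem : ∀ y : L, y ∈ (FP k p).rootSet L → y ∈ A := by
    intro y hy
    obtain ⟨z, hz⟩ := IsIntegrallyClosed.isIntegral_iff.1
      (show IsIntegral A y from ⟨FR, hFm, hev y hy⟩)
    rw [← hz]
    exact z.2
  have hroot : ∀ y : A, (y : L) ∈ (FP k p).rootSet L → FR.eval y = 0 := by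
    intro y hy
    have h1 := hev y hy
    have h2 : FR.eval₂ (algebraMap A L) (algebraMap A L y) = 0 := h1
    rw [eval₂_at_apply] at h2
    exact (map_eq_zero_iff _ (IsFractionRing.injective A L)).1 h2
  have hchar : CharP (IsLocalRing.ResidueField A) p :=
    charP_of_injective_ringHom ((IsLocalRing.residue A).comp cA).injective p
  have hcharL : CharP L p := charP_of_injective_ringHom (cc k L).injective p
  rw [Subgroup.eq_bot_iff_forall]
  intro s hs
  have hs' : ∀ r : A, IsLocalRing.residue A (s • r) = IsLocalRing.residue A r := by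
    intro r
    rw [IsLocalRing.ResidueField.residue_smul]
    have h3 : MulSemiringAction.toRingAut (A.decompositionSubgroup (RatFunc k))
        (IsLocalRing.ResidueField A) s = 1 := hs
    have h4 := RingEquiv.congr_fun h3 (IsLocalRing.residue A r)
    exact h4
  have hfix : ∀ y ∈ (FP k p).rootSet L, (s : L ≃ₐ[RatFunc k] L) y = y := by
    intro y hy
    have hsr : (s : L ≃ₐ[RatFunc k] L) y ∈ (FP k p).rootSet L :=
      SnT.rp_mem _ (s : L ≃ₐ[RatFunc k] L) y hy
    by_contra hne
    let yA : A := ⟨y, hmem y hy⟩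
    have hsy : ((s • yA : A) : L) = (s : L ≃ₐ[RatFunc k] L) y := rfl
    have h3 := AnT.AUnr_double (IsLocalRing.residue A) FR yA (s • yA) (hroot yA hy)
      (hroot _ (by rw [hsy]; exact hsr)) (fun h => hne (by rw [← hsy, h])) (hs' yA)
    have h4 : FR.map (IsLocalRing.residue A) =
        X ^ p + (C ((IsLocalRing.residue A xA) ^ 2) - X ^ 2) := by
      simp only [FR, Polynomial.map_sub, Polynomial.map_add, map_C, Polynomial.map_pow, map_X,
        map_pow]
    rw [h4] at h3
    obtain ⟨hy0, hxr⟩ := PUnr_double hp _ _ h3.1 h3.2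
    -- the quotient `w = y / x`
    have hre := root_eq hy
    have hre' := root_eq hsr
    have hyne : y ≠ 0 := by
      intro h
      rw [h, zero_pow hp0.ne', zero_pow two_ne_zero, zero_add] at hre
      exact hx0 (pow_eq_zero_iff two_ne_zero |>.1 hre)
    have hp2 : p = (p - 2) + 2 := by omega
    have hw2 : (y / xx k L) ^ 2 * (1 - y ^ (p - 2)) = 1 := by
      have h5 : y ^ p = y ^ (p - 2) * y ^ 2 := by
        conv_lhs => rw [hp2]
        rw [pow_add]
      rw [h5] at hre
      rw [div_pow, div_mul_eq_mul_div, div_eq_one_iff_eq (pow_ne_zero _ hx0)]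
      linear_combination -hre
    -- `1 - y ^ (p - 2)` is a unit of `A`
    have hru : IsLocalRing.residue A (1 - yA ^ (p - 2)) = 1 := by
      rw [map_sub, map_one, map_pow, hy0, zero_pow (by omega), sub_zero]
    have hu : IsUnit (1 - yA ^ (p - 2)) := by
      by_contra hn
      have h5 : IsLocalRing.residue A (1 - yA ^ (p - 2)) = 0 :=
        (IsLocalRing.residue_eq_zero_iff _).2 ((IsLocalRing.mem_maximalIdeal _).2 hn)
      rw [hru] at h5
      exact one_ne_zero h5
    obtain ⟨u, hu⟩ := hu
    have hw2A : (y / xx k L) ^ 2 ∈ A := by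
      have h5 : ((u : A) : L) * (((u⁻¹ : Aˣ) : A) : L) = 1 := by
        have h6 : (u : A) * ((u⁻¹ : Aˣ) : A) = 1 := u.mul_inv
        exact_mod_cast congrArg (fun z : A => (z : L)) h6
      have h7 : ((u : A) : L) = 1 - y ^ (p - 2) := by
        rw [hu]
        rfl
      have h8 : (y / xx k L) ^ 2 = (((u⁻¹ : Aˣ) : A) : L) := by
        rw [h7] at h5
        have h9 : (1 - y ^ (p - 2)) ≠ 0 := left_ne_zero_of_mul_eq_one h5
        exact mul_right_cancel₀ h9 (by rw [hw2, mul_comm, h5])
      rw [h8]
      exact ((u⁻¹ : Aˣ) : A).2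
    have hwA : y / xx k L ∈ A := by
      rcases A.mem_or_inv_mem (y / xx k L) with h | h
      · exact h
      · have h5 : y / xx k L = (y / xx k L) ^ 2 * (y / xx k L)⁻¹ := by
          have : y / xx k L ≠ 0 := div_ne_zero hyne hx0
          field_simp
        rw [h5]
        exact A.mul_mem _ _ hw2A h
    let wA : A := ⟨y / xx k L, hwA⟩
    have hsw : ((s • wA : A) : L) = (s : L ≃ₐ[RatFunc k] L) y / xx k L := by
      have h5 : ((s • wA : A) : L) = (s : L ≃ₐ[RatFunc k] L) (y / xx k L) := rfl
      rw [h5, map_div₀, AlgEquiv.commutes]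
    have hrw : (IsLocalRing.residue A wA) ^ 2 = 1 := by
      have h5 : wA ^ 2 * (1 - yA ^ (p - 2)) = 1 := Subtype.ext hw2
      have h6 := congrArg (IsLocalRing.residue A) h5
      rw [map_mul, hru, mul_one, map_pow, map_one] at h6
      exact h6
    have hrel := PUnr_rel hpp hre hre' hne
    have hA : wA + s • wA = xA ^ (p - 2) * (wA - s • wA) ^ (p - 1) := by
      apply Subtype.ext
      have e1 : ((wA + s • wA : A) : L) = y / xx k L + (s : L ≃ₐ[RatFunc k] L) y / xx k L := by
        rw [← hsw]
        rfl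
      have e2 : ((xA ^ (p - 2) * (wA - s • wA) ^ (p - 1) : A) : L) = xx k L ^ (p - 2) *
          (y / xx k L - (s : L ≃ₐ[RatFunc k] L) y / xx k L) ^ (p - 1) := by
        rw [← hsw]
        rfl
      have hp1 : p - 1 = (p - 2) + 1 := by omega
      rw [e1, e2, ← sub_div, ← add_div, div_pow, hrel, hp1, pow_succ]
      field_simp
    have h7 := congrArg (IsLocalRing.residue A) hA
    rw [map_add, hs' wA, map_mul, map_pow, hxr, zero_pow (by omega), zero_mul] at h7
    have h2 : ((2 : ℕ) : IsLocalRing.ResidueField A) ≠ 0 := by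
      intro h
      have := (CharP.cast_eq_zero_iff (IsLocalRing.ResidueField A) p 2).1 h
      have := Nat.le_of_dvd (by omega) this
      omega
    have h8 : ((2 : ℕ) : IsLocalRing.ResidueField A) * IsLocalRing.residue A wA = 0 := by
      push_cast
      linear_combination h7
    rcases mul_eq_zero.1 h8 with h | h
    · exact h2 h
    · rw [h, zero_pow two_ne_zero] at hrw
      exact zero_ne_one hrw
  apply Subtype.ext
  have h5 : ((s : L ≃ₐ[RatFunc k] L) : L →ₐ[RatFunc k] L) = AlgHom.id (RatFunc k) L := by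
    refine AlgHom.ext_of_adjoin_eq_top (IsSplittingField.adjoin_rootSet L (FP k p)) ?_
    intro y hy
    exact hfix y hy
  ext y
  exact DFunLike.congr_fun h5 y

end MP7b0bad.ApT
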