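import Pool.Agent.Work.MP_7b0bad_ag.ApT.Stmts
import Pool.Agent.Work.MP_7b0bad_ag.Bd.B03

set_option autoImplicit false

/-!
# Block ApT, item PVal (helper9): values of the roots
-/

open Polynomial Pointwise

namespace MP7b0bad.ApT

open SnT (cc xx rp)

theorem prf_PVal : PVal := by
  intro p _ k _ _ hp L _ _ A hA y hy
  have h1 := root_eq hy
  have hX : 1 < A.valuation (xx k L) := F3_X hA
  have hx2 : 1 < A.valuation (xx k L ^ 2) := by
    rw [map_pow]
    exact one_lt_pow₀ hX two_ne_zero
  have hn : y ∉ A := by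
    intro hyA
    have h3 : xx k L ^ 2 ∈ A := by
      have h4 : xx k L ^ 2 = y ^ 2 - y ^ p := by linear_combination h1
      rw [h4]
      exact sub_mem (pow_mem hyA 2) (pow_mem hyA p)
    exact absurd ((A.valuation_le_one_iff _).2 h3) (not_le.2 hx2)
  refine ⟨hn, ?_⟩
  have hv : 1 < A.valuation y := by
    have h := hn
    rw [← A.valuation_le_one_iff, not_le] at h
    exact h
  have h5 : xx k L ^ 2 = - y ^ p + y ^ 2 := by linear_combination h1
  have h6 : A.valuation (y ^ 2) < A.valuation (- y ^ p) := by
    rw [Valuation.map_neg, map_pow, map_pow]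
    exact pow_lt_pow_right₀ hv (by omega)
  have h7 := congrArg A.valuation h5
  rw [Valuation.map_add_eq_of_lt_left _ h6, Valuation.map_neg, map_pow, map_pow] at h7
  exact h7.symm

end MP7b0bad.ApT
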