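import Pool.Agent.Work.MP_7b0bad_ag.AnT.All
import Pool.Agent.Work.MP_7b0bad_ag.MW.Stmts

set_option autoImplicit false

/-!
# Block ApT: the covers `y ^ p - y ^ 2 + x ^ 2 = 0` (seed for `A_p`), statements of the items

The same method as block AnT (`AnT/*.lean`), adapt its files: all the roots are big
(`v(y)^p = v(x)^2`), there are no small roots.  `v = A.valuation`, `m = A.nonunits`,
`D = A.decompositionSubgroup (RatFunc k)`; `u ≡ w` means `u - w ∈ A.nonunits`.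
-/

open Polynomial Pointwise

namespace MP7b0bad.ApT

open SnT (cc xx rp)

/-- `Y ^ p - Y ^ 2 + x ^ 2` over `k(x)` -/
noncomputable def FP (k : Type) [Field k] (p : ℕ) : (RatFunc k)[X] :=
  X ^ p - X ^ 2 + C ((RatFunc.X : RatFunc k) ^ 2)

/-- a root `y` satisfies `y ^ p + x ^ 2 = y ^ 2` -/
theorem root_eq {k : Type} [Field k] {p : ℕ} {L : Type} [Field L] [Algebra (RatFunc k) L] {y : L}
    (hy : y ∈ (FP k p).rootSet L) : y ^ p + SnT.xx k L ^ 2 = y ^ 2 := by
  have h := (mem_rootSet.1 hy).2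
  rw [FP] at h
  simp only [map_add, map_sub, map_pow, aeval_X, aeval_C] at h
  linear_combination h

/-- labels in `ZMod p` for the roots: the residue of `(y - y') / d` is `lab y - lab y'` -/
structure Lb (k : Type) [Field k] (p : ℕ) {L : Type} [Field L] [Algebra (RatFunc k) L]
    (A : ValuationSubring L) (d : L) (lab : L → ZMod p) : Prop where
  dif : ∃ y ∈ (FP k p).rootSet L, ∃ y' ∈ (FP k p).rootSet L, y' ≠ y ∧ d = y' - y
  inj : ∀ y ∈ (FP k p).rootSet L, ∀ y' ∈ (FP k p).rootSet L, lab y = lab y' → y = y'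
  surj : ∀ a : ZMod p, ∃ y ∈ (FP k p).rootSet L, lab y = a
  res : ∀ y ∈ (FP k p).rootSet L, ∀ y' ∈ (FP k p).rootSet L,
    (y - y') / d - (((lab y - lab y').val : ℕ) : L) ∈ A.nonunits

/-- [PIrr] `F` is irreducible: it is linear in `X' = x^2`, but over `k(x)`: e.g. in `k[Y][x]` the
polynomial `x^2 - Y^2 (1 - Y^(p-2))` is irreducible, because `1 - Y^(p-2)` is separable of positive
degree, so `Y^2 (1 - Y^(p-2))` is not a square in `k(Y)`; Gauss.  `F' = -2 Y ≠ 0`, so `F` is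
separable. -/
def PIrr : Prop := ∀ (p : ℕ) [Fact p.Prime] (k : Type) [Field k] [CharP k p], 5 ≤ p →
  (FP k p).Monic ∧ (FP k p).natDegree = p ∧ Irreducible (FP k p) ∧ (FP k p).Separable

/-- [PUnr] Finite places are unramified (compare `AUnr`).  The roots are in `A`; `x ≡ a` for a
constant `a` or at least `x` is a unit or in `m`.  Let `σ` be in the inertia group, `σ y ≡ y`.
If `x` is a unit: two different congruent roots give `F'(y) = -2 y ≡ 0`, so `y ≡ 0`, and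
`x^2 = y^2 - y^p ≡ 0`, contradiction.  If `x ∈ m`: a root `y` is a unit with `y^(p-2) ≡ 1` (different
unit roots are not congruent, again by `F'`), or in `m`; for `y ∈ m`, `(y/x)^2 = 1/(1 - y^(p-2)) ≡ 1`,
so `y/x ≡ ± 1`, and `σ y / x = σ (y/x) ≡ y/x` (`σ` acts trivially on residues).  Two roots
`y ≠ y'` in `m` with `y/x ≡ y'/x`: `y^2 - y'^2 = (y - y')^p`, so `y + y' = (y - y')^(p-1)`, but
`v(y + y') = v(x)` and `v(y - y') < v(x) < 1`.  So `σ` fixes all the roots. -/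
def PUnr : Prop := ∀ (p : ℕ) [Fact p.Prime] (k : Type) [Field k] [CharP k p], 5 ≤ p →
  ∀ (L : Type) [Field L] [Algebra (RatFunc k) L]
  [IsSplittingField (RatFunc k) L (FP k p)] (A : ValuationSubring L), (∀ c : k, cc k L c ∈ A) →
  xx k L ∈ A → ValuationSubring.inertiaSubgroup (RatFunc k) A = ⊥

/-- [PVal] values of the roots -/
def PVal : Prop := ∀ (p : ℕ) [Fact p.Prime] (k : Type) [Field k] [CharP k p], 5 ≤ p →
  ∀ (L : Type) [Field L] [Algebra (RatFunc k) L] (A : ValuationSubring L), AtInfty (k := k) A →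
  ∀ y ∈ (FP k p).rootSet L, y ∉ A ∧ A.valuation y ^ p = A.valuation (xx k L) ^ 2

/-- [PDif] (hVal) `d = y' - y`: `d^p = y'^2 - y^2 = d (2 y + d)`, so `d^(p-1) = 2 y + d`,
`v(d) < v(y)` and `d^(p-1) = 2 y (1 + m)`.  Hence `v(d)^(p-1) = v(y)`, and for two differences
`d, d'` the ratio `w = d'/d` satisfies `w^(p-1) ≡ z/y ≡ 1` (`z - y` is a difference). -/
def PDif : Prop := ∀ (p : ℕ) [Fact p.Prime] (k : Type) [Field k] [CharP k p], 5 ≤ p →
  ∀ (L : Type) [Field L] [Algebra (RatFunc k) L] (A : ValuationSubring L),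
  AtInfty (k := k) A → ∀ y ∈ (FP k p).rootSet L, ∀ y' ∈ (FP k p).rootSet L, y' ≠ y →
  A.valuation (y' - y) ^ (p * (p - 1)) = A.valuation (xx k L) ^ 2 ∧
  ∀ z ∈ (FP k p).rootSet L, ∀ z' ∈ (FP k p).rootSet L, z' ≠ z →
    ∃ a : ZMod p, a ≠ 0 ∧ (z' - z) / (y' - y) - ((a.val : ℕ) : L) ∈ A.nonunits

/-- [PLab] (hDif) labels, as `ALab` -/
def PLab : Prop := ∀ (p : ℕ) [Fact p.Prime] (k : Type) [Field k] [CharP k p], 5 ≤ p →
  ∀ (L : Type) [Field L] [Algebra (RatFunc k) L]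
  [IsSplittingField (RatFunc k) L (FP k p)] (A : ValuationSubring L), AtInfty (k := k) A →
  ∃ (d : L) (lab : L → ZMod p), Lb k p A d lab

/-- [POrb] (hVal) the decomposition group is transitive on the roots, as `AOrb` (`2` and `p` are
coprime) -/
def POrb : Prop := ∀ (p : ℕ) [Fact p.Prime] (k : Type) [Field k] [IsAlgClosed k] [CharP k p],
  5 ≤ p → ∀ (L : Type) [Field L] [Algebra (RatFunc k) L]
  [IsSplittingField (RatFunc k) L (FP k p)] [FiniteDimensional (RatFunc k) L]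
  [IsGalois (RatFunc k) L] (A : ValuationSubring L), AtInfty (k := k) A →
  ∀ y ∈ (FP k p).rootSet L, ∀ y' ∈ (FP k p).rootSet L,
    ∃ σ : L ≃ₐ[RatFunc k] L, σ • A = A ∧ σ y = y'

/-- [PAff] (hDif) as `AAff` -/
def PAff : Prop := ∀ (p : ℕ) [Fact p.Prime] (k : Type) [Field k] [CharP k p], 5 ≤ p →
  ∀ (L : Type) [Field L] [Algebra (RatFunc k) L] (A : ValuationSubring L),
  AtInfty (k := k) A → ∀ (d : L) (lab : L → ZMod p), Lb k p A d lab →
  ∀ σ : L ≃ₐ[RatFunc k] L, σ • A = A → ∃ θ : ZMod p, θ ≠ 0 ∧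
    σ d / d - ((θ.val : ℕ) : L) ∈ A.nonunits ∧
    ∀ y ∈ (FP k p).rootSet L, ∀ y' ∈ (FP k p).rootSet L, lab (σ y) - lab (σ y') =
      θ * (lab y - lab y')

/-- [POrd] (hDif) as `AOrd`: `v(∏ σ d)^(p (p-1)) = v(x)^(2 |D|)` and `∏ σ d` has value `v(x)^j` -/
def POrd : Prop := ∀ (p : ℕ) [Fact p.Prime] (k : Type) [Field k] [IsAlgClosed k] [CharP k p],
  5 ≤ p → ∀ (L : Type) [Field L] [Algebra (RatFunc k) L]
  [IsSplittingField (RatFunc k) L (FP k p)] [FiniteDimensional (RatFunc k) L]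
  [IsGalois (RatFunc k) L] (A : ValuationSubring L), AtInfty (k := k) A →
  p * (p - 1) ∣ 2 * Nat.card (A.decompositionSubgroup (RatFunc k))

/-- [PGrp] group theory, `D` a group of affine maps of `ZMod p` (`θ` is a character of `D`, its
kernel `N` is generated by a translation `τ`; `c = g^p`, `θ(g)` a generator of the cyclic group
`θ(D)`; `|D| = p |θ(D)|`; compare `AGrp`) -/
def PGrp : Prop := ∀ (p : ℕ) [Fact p.Prime] (D B : Type) [Group D] [Finite D]
  (β : D →* Equiv.Perm B) (lab : B ≃ ZMod p), 5 ≤ p → Function.Injective β →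
  (∀ g, ∃ θ : ZMod p, θ ≠ 0 ∧ ∀ y y', lab (β g y) - lab (β g y') = θ * (lab y - lab y')) →
  (∀ y y', ∃ g, β g y = y') → p * (p - 1) ∣ 2 * Nat.card D →
  ∃ τ c : D, Subgroup.zpowers τ ⊔ Subgroup.zpowers c = ⊤ ∧ orderOf τ = p ∧
    (∀ y, β τ y ≠ y) ∧ (∀ y y', ∃ m : ℕ, (β τ ^ m) y = y') ∧ ¬ p ∣ orderOf c ∧
    (∃ a : ℕ, c * τ * c⁻¹ = τ ^ a) ∧ (∃ y, β c y = y) ∧
    ∀ m : ℕ, c ^ m * τ = τ * c ^ m → (p - 1) / 2 ∣ m

/-- [PFld] (hLab, hOrb, hAff, hOrd, hGrp) as `AFld` -/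
def PFld : Prop := ∀ (p : ℕ) [Fact p.Prime] (k : Type) [Field k] [IsAlgClosed k] [CharP k p],
  5 ≤ p → ∀ (L : Type) [Field L] [Algebra (RatFunc k) L]
  [IsSplittingField (RatFunc k) L (FP k p)] [FiniteDimensional (RatFunc k) L]
  [IsGalois (RatFunc k) L] (A : ValuationSubring L), AtInfty (k := k) A →
  ∃ τ c : L ≃ₐ[RatFunc k] L,
    A.decompositionSubgroup (RatFunc k) = Subgroup.zpowers τ ⊔ Subgroup.zpowers c ∧
    orderOf τ = p ∧ (∀ y ∈ (FP k p).rootSet L, ∀ y' ∈ (FP k p).rootSet L, ∃ m : ℕ, (τ ^ m) y = y') ∧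
    ¬ p ∣ orderOf c ∧ (∃ a : ℕ, c * τ * c⁻¹ = τ ^ a) ∧ (∃ y ∈ (FP k p).rootSet L, c y = y) ∧
    ∀ m : ℕ, c ^ m * τ = τ * c ^ m → (p - 1) / 2 ∣ m

/-- [PSer] power series roots: over `k[[x]]` the polynomial `Y^p - Y^2 + x^2` splits, the roots are
`y₁ = x w(x)`, `y₂ = -x w(-x)` with `w(0) = 1` (Hensel for `x^(p-2) W^p - W^2 + 1`) and one root
with constant term `c` for each `c` with `c^(p-2) = 1` -/
def PSer : Prop := ∀ (p : ℕ) [Fact p.Prime] (k : Type) [Field k] [IsAlgClosed k] [CharP k p],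
  5 ≤ p → ∃ r : Fin p → PowerSeries k, Function.Injective r ∧
    (X ^ p - X ^ 2 + C ((PowerSeries.X : PowerSeries k) ^ 2) : (PowerSeries k)[X]) =
      ∏ i, (X - C (r i)) ∧
    ∃ i₀ i₁ : Fin p, i₀ ≠ i₁ ∧ PowerSeries.constantCoeff (r i₀) = 0 ∧
      PowerSeries.constantCoeff (r i₁) = 0 ∧ PowerSeries.coeff 1 (r i₀) = 1 ∧
      PowerSeries.coeff 1 (r i₁) = -1 ∧
      ∀ i j, PowerSeries.constantCoeff (r i) = PowerSeries.constantCoeff (r j) → i ≠ j →
        (i = i₀ ∧ j = i₁) ∨ (i = i₁ ∧ j = i₀)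

/-- [PTr] (hIrr, hSer) the Galois group contains the alternating group.  `L₀ = k((x))`, `L` embeds
into it (`F` splits, `PSer`).  The automorphism `s : x ↦ -x` of `k((x))` maps `L` to itself (`L` is
generated over `k(x)` by the roots of `F`, whose coefficients are in `k(x^2)`) and acts on the
roots as the transposition of `r i₀` and `r i₁`.  Let `E` be the group of the permutations of the
roots induced by field automorphisms `σ` of `L` with `σ x = ± x`, `σ c = c` for `c ∈ k`: it is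
transitive (`F` irreducible), contains a transposition, so `E = S_p`
(`Equiv.Perm.subgroup_eq_top_of_swap_mem`); the permutations induced by `Gal(L/k(x))` contain the
squares of the elements of `E`, in particular the 3-cycles. -/
def PTr : Prop := ∀ (p : ℕ) [Fact p.Prime] (k : Type) [Field k] [IsAlgClosed k] [CharP k p],
  5 ≤ p → ∀ (L : Type) [Field L] [Algebra (RatFunc k) L]
  [IsSplittingField (RatFunc k) L (FP k p)] [FiniteDimensional (RatFunc k) L]
  [IsGalois (RatFunc k) L] (ψ : Fin p ≃ (FP k p).rootSet L),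
  alternatingGroup (Fin p) ≤ (AnT.prm (L := L) (FP k p) ψ).range

end MP7b0bad.ApT
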