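import Pool.Agent.Work.MP_7b0bad_ag.ApT.ApMain
import Pool.Agent.Work.MP_7b0bad_ag.ApT.PAff
import Pool.Agent.Work.MP_7b0bad_ag.ApT.PDif
import Pool.Agent.Work.MP_7b0bad_ag.ApT.PFld
import Pool.Agent.Work.MP_7b0bad_ag.ApT.PGrp
import Pool.Agent.Work.MP_7b0bad_ag.ApT.PIrr
import Pool.Agent.Work.MP_7b0bad_ag.ApT.PLab
import Pool.Agent.Work.MP_7b0bad_ag.ApT.POrb
import Pool.Agent.Work.MP_7b0bad_ag.ApT.POrd
import Pool.Agent.Work.MP_7b0bad_ag.ApT.PSer
import Pool.Agent.Work.MP_7b0bad_ag.ApT.PTr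
import Pool.Agent.Work.MP_7b0bad_ag.ApT.PUnr
import Pool.Agent.Work.MP_7b0bad_ag.ApT.PVal
import Pool.Agent.Work.MP_7b0bad_ag.ApT.Stmts

set_option autoImplicit false

/-!
# Block ApT: assembly without hypotheses
-/

namespace MP7b0bad.ApT

theorem all_PDif : PDif := prf_PDif prf_PVal
theorem all_PAff : PAff := prf_PAff all_PDif
theorem all_PLab : PLab := prf_PLab all_PDif prf_PIrr
theorem all_POrb : POrb := prf_POrb prf_PVal prf_PIrr
theorem all_POrd : POrd := prf_POrd all_PDif prf_PIrr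
theorem all_PFld : PFld := prf_PFld all_PLab all_POrb all_PAff all_POrd prf_PGrp
theorem all_PTr : PTr := prf_PTr prf_PIrr prf_PSer
theorem all_ApMain : MW.ApMain := prf_ApMain prf_PIrr prf_PUnr all_PFld all_PTr

end MP7b0bad.ApT
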