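import Pool.Agent.Work.MP_7b0bad_ag.ApT.Stmts
import Pool.Agent.Work.MP_7b0bad_ag.AnT.Fin
import Pool.Agent.Work.MP_7b0bad_ag.MT.MSgn
import Pool.Agent.Work.MP_7b0bad_ag.SnT.SIner

set_option autoImplicit false

/-!
# Block ApT: assembly (item ApMain)
-/

open Polynomial Pointwise

namespace MP7b0bad.ApT

open MP7b0bad.SnT MP7b0bad.AnT

theorem ApMain_tr {k : Type} [Field k] {G : Type} [Group G] {P : Subgroup G} {c : G}
    {H H' : Subgroup G} (h : H = H') (hR : MT.Rz k P c H) : MT.Rz k P c H' := by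
  subst h
  exact hR

/-- `fld_main` for `e = 0`, with the group `H` -/
theorem ApMain_fld {p : ℕ} [hp : Fact p.Prime] {k : Type} [Field k] [IsAlgClosed k]
    {L : Type} [Field L] [Algebra (RatFunc k) L] [FiniteDimensional (RatFunc k) L]
    [IsGalois (RatFunc k) L] {F : (RatFunc k)[X]} [IsSplittingField (RatFunc k) L F]
    {A : ValuationSubring L} {x c : L ≃ₐ[RatFunc k] L}
    (hdeg : F.natDegree = p) (hsep : F.Separable)
    (hunr : ∀ A' : ValuationSubring L, (∀ a : k, cc k L a ∈ A') → xx k L ∈ A' →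
      ValuationSubring.inertiaSubgroup (RatFunc k) A' = ⊥)
    (hinf : AtInfty (k := k) A)
    (hdec : (ValuationSubring.inertiaSubgroup (RatFunc k) A).map
      (ValuationSubring.decompositionSubgroup (RatFunc k) A).subtype =
        Subgroup.zpowers x ⊔ Subgroup.zpowers c)
    (hxB : ∀ y ∈ F.rootSet L, ∀ y' ∈ F.rootSet L, ∃ m : ℕ, (x ^ m) y = y')
    (hord : ¬ p ∣ orderOf c) (hnorm : ∃ a : ℕ, c * x * c⁻¹ = x ^ a)
    (he1 : ∀ m : ℕ, c ^ m * x = x * c ^ m → (p - 1) / 2 ∣ m) :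
    ∃ (ψ : Fin p ≃ F.rootSet L) (x c : Equiv.Perm (Fin p)),
      x.IsCycle ∧ x.support.card = p ∧ ¬ p ∣ orderOf c ∧ (∃ a : ℕ, c * x * c⁻¹ = x ^ a) ∧
      (∀ m : ℕ, c ^ m * x = x * c ^ m → (p - 1) / 2 ∣ m) ∧
      MT.Rz k (Subgroup.zpowers x) c (prm F ψ).range := by
  classical
  have hprime : p.Prime := hp.out
  have hfin : Finite (F.rootSet L) := inferInstance
  have hcard : Nat.card (F.rootSet L) = p := by
    rw [Nat.card_eq_fintype_card, ← hdeg]
    exact Polynomial.card_rootSet_eq_natDegree hsep (IsSplittingField.splits L F)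
  obtain ⟨ψ⟩ : Nonempty (Fin p ≃ F.rootSet L) := by
    have h1 : Nonempty (Fin (Nat.card (F.rootSet L)) ≃ F.rootSet L) :=
      ⟨(Finite.equivFin _).symm⟩
    rw [hcard] at h1
    exact h1
  have hpow : ∀ (σ : L ≃ₐ[RatFunc k] L) (m : ℕ) (i j : Fin p),
      ((prm F ψ σ) ^ m) i = j ↔ (σ ^ m) (ψ i : F.rootSet L) = (ψ j : F.rootSet L) := by
    intro σ m i j
    rw [← map_pow]
    exact prm_eq F ψ (σ ^ m) i j
  have hinj := prm_inj (L := L) F ψ
  have hmov : ∀ i, prm F ψ x i ≠ i := by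
    intro i hi
    have h0 : ∀ m : ℕ, ((prm F ψ x) ^ m) i = i := by
      intro m
      induction m with
      | zero => rfl
      | succ m ih => rw [pow_succ, Equiv.Perm.mul_apply, hi, ih]
    have h1 : ∀ j, j = i := by
      intro j
      obtain ⟨m, hm⟩ := hxB _ (ψ i).2 _ (ψ j).2
      rw [← hpow, h0] at hm
      exact hm.symm
    have h2 : Fintype.card (Fin p) ≤ 1 := Fintype.card_le_one_iff.2 fun a b => by
      rw [h1 a, h1 b]
    rw [Fintype.card_fin] at h2
    exact absurd h2 (not_le.2 hprime.one_lt)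
  have i₀ : Fin p := ⟨0, hprime.pos⟩
  refine ⟨ψ, prm F ψ x, prm F ψ c, ?_, ?_, ?_, ?_, ?_, ?_, ?_⟩
  · refine ⟨i₀, hmov i₀, ?_⟩
    intro j _
    obtain ⟨m, hm⟩ := hxB _ (ψ i₀).2 _ (ψ j).2
    refine ⟨(m : ℤ), ?_⟩
    rw [zpow_natCast, hpow]
    exact hm
  · have h1 : (prm F ψ x).support = Finset.univ := by
      ext i
      simp only [Equiv.Perm.mem_support, Finset.mem_univ, iff_true]
      exact hmov i
    rw [h1, Finset.card_univ, Fintype.card_fin]
  · rw [orderOf_injective _ hinj]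
    exact hord
  · obtain ⟨a, ha⟩ := hnorm
    refine ⟨a, ?_⟩
    rw [← map_inv, ← map_mul, ← map_mul, ha, map_pow]
  · intro m hm
    apply he1 m
    apply hinj
    rw [map_mul, map_mul, map_pow]
    exact hm
  · rw [sup_le_iff, Subgroup.zpowers_le, Subgroup.zpowers_le]
    exact ⟨⟨x, rfl⟩, ⟨c, rfl⟩⟩
  · have hD : Subgroup.zpowers (prm F ψ x) ⊔ Subgroup.zpowers (prm F ψ c) =
        (Subgroup.zpowers x ⊔ Subgroup.zpowers c).map (prm F ψ) := by
      rw [Subgroup.map_sup, MonoidHom.map_zpowers, MonoidHom.map_zpowers]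
    rw [hD]
    refine (MP7b0bad.all_T0 k (prm F ψ).range _).2 ?_
    refine ⟨L, inferInstance, inferInstance, inferInstance, inferInstance,
      (MonoidHom.ofInjective hinj).symm, hunr, A, hinf.1, hinf.2, ?_⟩
    rw [hdec]
    exact (occ_transfer (prm F ψ) hinj _).symm

theorem prf_ApMain (hIrr : PIrr) (hUnr : PUnr) (hFld : PFld) (hTr : PTr) : MW.ApMain := by
  intro p _ k _ _ _ h5
  obtain ⟨-, hdeg, hirr, hsep⟩ := hIrr p k h5
  have : FiniteDimensional (RatFunc k) (FP k p).SplittingField :=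
    Polynomial.IsSplittingField.finiteDimensional _ (FP k p)
  have : IsGalois (RatFunc k) (FP k p).SplittingField :=
    IsGalois.of_separable_splitting_field hsep
  obtain ⟨A, hA⟩ := prf_F4 k (FP k p).SplittingField
  obtain ⟨τ, c, hdec, -, hτ, hc, hn, -, he1⟩ := hFld p k h5 (FP k p).SplittingField A hA
  obtain ⟨ψ, x', c', h1, h2, h3, h4, h6, h7⟩ := ApMain_fld (p := p) (k := k)
    (L := (FP k p).SplittingField) (F := FP k p) (A := A) (x := τ) (c := c) hdeg hsep
    (fun A' ha hb => hUnr p k h5 (FP k p).SplittingField A' ha hb) hA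
    (by rw [prf_SIner k (FP k p).SplittingField A hA]; exact hdec) hτ hc hn he1
  have hp2 : p ≠ 2 := by omega
  have hH : (prm (FP k p) ψ).range = alternatingGroup (Fin p) := by
    refine le_antisymm ?_ (hTr p k h5 (FP k p).SplittingField ψ)
    intro g hg
    rw [Equiv.Perm.mem_alternatingGroup]
    exact MT.prf_MSgn k p (prm (FP k p) ψ).range _ hp2 h7.2
      (Equiv.Perm.sign.comp (prm (FP k p) ψ).range.subtype) ⟨g, hg⟩
  exact ⟨x', c', h1, h2, h3, h4, h6, ApMain_tr hH h7⟩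

end MP7b0bad.ApT
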