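import Pool.Agent.Work.MP_7b0bad_ag.ApT.Stmts

set_option autoImplicit false

open Polynomial Pointwise

namespace MP7b0bad.ApT

open SnT (cc xx rp)
open AnT (prm prm_eq prm_val)

theorem PTr_ext {K L Q : Type} [Field K] [Field L] [Field Q] [Algebra K L] [Algebra K Q]
    (F : K[X]) [IsSplittingField K L F] (φ : L →ₐ[K] Q) (s : Q →+* Q) (hs : ∀ z, s (s z) = z)
    (ν : K →+* K) (hν : ∀ a, s (algebraMap K Q a) = algebraMap K Q (ν a)) (hF : F.map ν = F) :
    ∃ S : L ≃+* L, ∀ z, φ (S z) = s (φ z) := by
  have himg := (IsSplittingField.splits L F).image_rootSet φ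
  have hroot : ∀ y ∈ F.rootSet L, ∃ w, φ w = s (φ y) := by
    intro y hy
    have h1 : φ y ∈ F.rootSet Q := by
      rw [← himg]
      exact ⟨y, hy, rfl⟩
    rw [mem_rootSet] at h1
    have h2 : s (φ y) ∈ F.rootSet Q := by
      rw [mem_rootSet]
      refine ⟨h1.1, ?_⟩
      have h3 := congrArg s h1.2
      rw [aeval_def, hom_eval₂, map_zero] at h3
      have h4 : s.comp (algebraMap K Q) = (algebraMap K Q).comp ν := by
        ext a
        exact hν a
      rw [h4, ← eval₂_map, hF] at h3
      exact h3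
    rw [← himg] at h2
    obtain ⟨w, _, hw⟩ := h2
    exact ⟨w, hw⟩
  have h1 : ∀ z, ∃ w, φ w = s (φ z) := by
    intro z
    have hz : z ∈ Algebra.adjoin K (F.rootSet L) := by
      rw [IsSplittingField.adjoin_rootSet L F]
      exact Algebra.mem_top
    induction hz using Algebra.adjoin_induction with
    | mem y hy => exact hroot y hy
    | algebraMap a => exact ⟨algebraMap K L (ν a), by rw [φ.commutes, φ.commutes, hν]⟩
    | add a b _ _ ha hb =>
      obtain ⟨a', ha⟩ := ha
      obtain ⟨b', hb⟩ := hb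
      exact ⟨a' + b', by rw [map_add, map_add, map_add, ha, hb]⟩
    | mul a b _ _ ha hb =>
      obtain ⟨a', ha⟩ := ha
      obtain ⟨b', hb⟩ := hb
      exact ⟨a' * b', by rw [map_mul, map_mul, map_mul, ha, hb]⟩
  choose S hS using h1
  have hinj : Function.Injective φ := φ.toRingHom.injective
  have hSS : ∀ z, S (S z) = z := by
    intro z
    apply hinj
    rw [hS, hS, hs]
  exact ⟨{ toFun := S, invFun := S, left_inv := hSS, right_inv := hSS,
           map_mul' := fun a b => hinj (by rw [hS, map_mul, map_mul, map_mul, hS, hS]),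
           map_add' := fun a b => hinj (by rw [hS, map_add, map_add, map_add, hS, hS]) }, hS⟩

/-- the permutations of the roots given by the automorphisms of `L` with `σ x = ± x`,
`σ c = c` for constants -/
def PTr_E (k : Type) [Field k] (p : ℕ) {L : Type} [Field L] [Algebra (RatFunc k) L]
    (ψ : Fin p ≃ (FP k p).rootSet L) : Subgroup (Equiv.Perm (Fin p)) where
  carrier := {π | ∃ σ : L ≃+* L, (∀ c : k, σ (cc k L c) = cc k L c) ∧
    σ (xx k L) ^ 2 = xx k L ^ 2 ∧ ∀ i, σ (ψ i : (FP k p).rootSet L) = (ψ (π i) : (FP k p).rootSet L)}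
  one_mem' := ⟨RingEquiv.refl L, fun _ => rfl, rfl, fun _ => rfl⟩
  mul_mem' := by
    rintro π π' ⟨σ, h1, h2, h3⟩ ⟨σ', h1', h2', h3'⟩
    refine ⟨σ'.trans σ, fun c => ?_, ?_, fun i => ?_⟩
    · rw [RingEquiv.trans_apply, h1', h1]
    · rw [RingEquiv.trans_apply, ← map_pow, h2', map_pow, h2]
    · rw [RingEquiv.trans_apply, h3', h3]
      rfl
  inv_mem' := by
    rintro π ⟨σ, h1, h2, h3⟩
    refine ⟨σ.symm, fun c => ?_, ?_, fun i => ?_⟩
    · rw [RingEquiv.symm_apply_eq, h1]
    · rw [← map_pow, RingEquiv.symm_apply_eq, map_pow, h2]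
    · rw [RingEquiv.symm_apply_eq, h3]
      exact congrArg (fun j => ((ψ j : (FP k p).rootSet L) : L)) (π.apply_symm_apply i).symm

/-- the square of an element of `PTr_E` comes from the Galois group -/
theorem PTr_sq {k : Type} [Field k] {p : ℕ} {L : Type} [Field L] [Algebra (RatFunc k) L]
    (ψ : Fin p ≃ (FP k p).rootSet L) (π : Equiv.Perm (Fin p)) (h : π ∈ PTr_E k p ψ) :
    π * π ∈ (prm (L := L) (FP k p) ψ).range := by
  obtain ⟨σ, h1, h2, h3⟩ := h
  have hx : σ (σ (xx k L)) = xx k L := by
    rcases sq_eq_sq_iff_eq_or_eq_neg.1 h2 with h4 | h4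
    · rw [h4, h4]
    · rw [h4, map_neg, h4, neg_neg]
  let τ : L ≃+* L := σ.trans σ
  have hK : ∀ a : RatFunc k, τ (algebraMap (RatFunc k) L a) = algebraMap (RatFunc k) L a := by
    have h5 : (τ : L →+* L).comp (algebraMap (RatFunc k) L) = algebraMap (RatFunc k) L := by
      apply IsLocalization.ringHom_ext (nonZeroDivisors k[X])
      apply Polynomial.ringHom_ext
      · intro c
        have h6 := h1 c
        simp only [RingHom.comp_apply, RingEquiv.coe_toRingHom]
        have h7 : algebraMap (RatFunc k) L (algebraMap k[X] (RatFunc k) (C c)) = cc k L c := by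
          rw [SnT.cc, RingHom.comp_apply]
          congr 1
        rw [h7]
        change σ (σ _) = _
        rw [h6, h6]
      · simp only [RingHom.comp_apply, RingEquiv.coe_toRingHom, RatFunc.algebraMap_X]
        exact hx
    intro a
    exact congrArg (fun f : RatFunc k →+* L => f a) h5
  refine ⟨AlgEquiv.ofRingEquiv (f := τ) hK, ?_⟩
  ext i
  congr 1
  rw [prm_eq]
  change σ (σ _) = _
  rw [h3, h3]
  rfl


/-- a transitive group of prime degree with a transposition, and the squares -/
theorem PTr_alt {p : ℕ} (hp : p.Prime) (E H : Subgroup (Equiv.Perm (Fin p)))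
    (htr : ∀ i j : Fin p, ∃ h ∈ E, h i = j) (a b : Fin p) (hab : a ≠ b)
    (hsw : Equiv.swap a b ∈ E) (hsq : ∀ π ∈ E, π * π ∈ H) : alternatingGroup (Fin p) ≤ H := by
  classical
  have hcard : Fintype.card (Fin p) ∣ Fintype.card E := by
    have hT : MulAction.IsPretransitive E (Fin p) := ⟨fun i j => by
      obtain ⟨h, hE, hh⟩ := htr i j
      exact ⟨⟨h, hE⟩, hh⟩⟩
    have h1 := MulAction.card_orbit_mul_card_stabilizer_eq_card_group E a
    rw [← h1]
    have h2 : Fintype.card (MulAction.orbit E a) = Fintype.card (Fin p) := by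
      rw [← Nat.card_eq_fintype_card, ← Nat.card_eq_fintype_card]
      rw [MulAction.orbit_eq_univ]
      exact Nat.card_congr (Equiv.Set.univ _)
    rw [h2]
    exact dvd_mul_right _ _
  have hE : E = ⊤ := Equiv.Perm.subgroup_eq_top_of_swap_mem (by rwa [Fintype.card_fin]) hcard hsw
    ⟨a, b, hab, rfl⟩
  rw [← Equiv.Perm.closure_three_cycles_eq_alternating, Subgroup.closure_le]
  intro σ hσ
  have h3 : σ ^ 3 = 1 := by
    have h4 : orderOf σ = 3 := Equiv.Perm.IsThreeCycle.orderOf hσ
    rw [← h4]
    exact pow_orderOf_eq_one σ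
  have h5 : σ = (σ * σ) * (σ * σ) := by
    have h6 : (σ * σ) * (σ * σ) = σ ^ 3 * σ := by
      simp only [pow_succ, pow_zero, one_mul, mul_assoc]
    rw [h6, h3, one_mul]
  rw [h5]
  apply hsq
  rw [hE]
  exact Subgroup.mem_top _


/-- the abstract form: the local field `Q`, the involution `s` of `Q` -/
theorem PTr_swap {k : Type} [Field k] {p : ℕ} {L : Type} [Field L] [Algebra (RatFunc k) L]
    [IsSplittingField (RatFunc k) L (FP k p)] (Q : Type) [Field Q] [Algebra (RatFunc k) Q]
    (r : Fin p → Q) (hr : Function.Injective r)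
    (hprod : (FP k p).map (algebraMap (RatFunc k) Q) = ∏ i, (X - C (r i)))
    (s : Q →+* Q) (hs : ∀ z, s (s z) = z)
    (ν : RatFunc k →+* RatFunc k)
    (hν : ∀ a, s (algebraMap (RatFunc k) Q a) = algebraMap (RatFunc k) Q (ν a))
    (hνc : ∀ c : k, ν (algebraMap k (RatFunc k) c) = algebraMap k (RatFunc k) c)
    (hνx : ν RatFunc.X = - RatFunc.X) (hp0 : FP k p ≠ 0)
    (i₀ i₁ : Fin p) (h01 : i₀ ≠ i₁) (hs0 : s (r i₀) = r i₁) (hs1 : s (r i₁) = r i₀)
    (hsi : ∀ i, i ≠ i₀ → i ≠ i₁ → s (r i) = r i)
    (ψ : Fin p ≃ (FP k p).rootSet L) : ∃ a b : Fin p, a ≠ b ∧ Equiv.swap a b ∈ PTr_E k p ψ := by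
  have hsplQ : ((FP k p).map (algebraMap (RatFunc k) Q)).Splits := by
    rw [hprod]
    exact Polynomial.Splits.prod fun i _ => Polynomial.Splits.X_sub_C _
  let φ : L →ₐ[RatFunc k] Q := IsSplittingField.lift L (FP k p) hsplQ
  have hF : (FP k p).map ν = FP k p := by
    rw [FP]
    simp only [Polynomial.map_add, Polynomial.map_sub, Polynomial.map_pow, map_X, map_C, map_pow,
      hνx]
    rw [map_neg, neg_sq]
  obtain ⟨S, hS⟩ := PTr_ext (L := L) (FP k p) φ s hs ν hν hF
  have hinj : Function.Injective φ := φ.toRingHom.injective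
  have himg := (IsSplittingField.splits L (FP k p)).image_rootSet φ
  have hmemQ : ∀ z : Q, z ∈ (FP k p).rootSet Q ↔ ∃ i, r i = z := by
    intro z
    rw [mem_rootSet, aeval_def, ← eval_map, hprod, eval_prod, Finset.prod_eq_zero_iff]
    constructor
    · rintro ⟨_, i, _, hi⟩
      refine ⟨i, ?_⟩
      rw [eval_sub, eval_X, eval_C] at hi
      exact (sub_eq_zero.1 hi).symm
    · rintro ⟨i, rfl⟩
      exact ⟨hp0, i, Finset.mem_univ _, by rw [eval_sub, eval_X, eval_C, sub_self]⟩
  -- the numbering `g` of the roots in `L` by `r`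
  have hg : ∀ i : Fin p, ∃ j : Fin p, φ (ψ j : (FP k p).rootSet L) = r i := by
    intro i
    have h1 : r i ∈ (FP k p).rootSet Q := (hmemQ _).2 ⟨i, rfl⟩
    rw [← himg] at h1
    obtain ⟨y, hy, hyi⟩ := h1
    obtain ⟨j, hj⟩ := ψ.surjective ⟨y, hy⟩
    exact ⟨j, by rw [hj]; exact hyi⟩
  have hg' : ∀ j : Fin p, ∃ i : Fin p, r i = φ (ψ j : (FP k p).rootSet L) := by
    intro j
    apply (hmemQ _).1
    rw [← himg]
    exact ⟨_, (ψ j).2, rfl⟩
  obtain ⟨a, ha⟩ := hg i₀
  obtain ⟨b, hb⟩ := hg i₁
  have hab : a ≠ b := by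
    rintro rfl
    exact h01 (hr (ha.symm.trans hb))
  refine ⟨a, b, hab, S, ?_, ?_, ?_⟩
  · intro c
    apply hinj
    rw [hS]
    change s (φ (algebraMap (RatFunc k) L (algebraMap k (RatFunc k) c))) =
      φ (algebraMap (RatFunc k) L (algebraMap k (RatFunc k) c))
    rw [φ.commutes, hν, hνc]
  · have h2 : S (xx k L) = - xx k L := by
      apply hinj
      rw [hS, map_neg]
      change s (φ (algebraMap (RatFunc k) L RatFunc.X)) = - φ (algebraMap (RatFunc k) L RatFunc.X)
      rw [φ.commutes, hν, hνx, map_neg]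
    rw [h2, neg_sq]
  · intro j
    apply hinj
    rw [hS]
    by_cases hja : j = a
    · rw [hja, Equiv.swap_apply_left, ha, hb, hs0]
    by_cases hjb : j = b
    · rw [hjb, Equiv.swap_apply_right, ha, hb, hs1]
    rw [Equiv.swap_apply_of_ne_of_ne hja hjb]
    obtain ⟨i, hi⟩ := hg' j
    rw [← hi]
    apply hsi
    · rintro rfl
      apply hja
      apply ψ.injective
      apply Subtype.ext
      apply hinj
      rw [ha, hi]
    · rintro rfl
      apply hjb
      apply ψ.injective
      apply Subtype.ext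
      apply hinj
      rw [hb, hi]


theorem prf_PTr (hIrr : PIrr) (hSer : PSer) : PTr := by
  intro p _ k _ _ _ h5 L _ _ _ _ _ ψ
  classical
  have hp : p.Prime := Fact.out
  obtain ⟨_, _, hirr, _⟩ := hIrr p k h5
  obtain ⟨r, hr, hprod, i₀, i₁, h01, hc0, hc1, hk0, hk1, huniq⟩ := hSer p k h5
  have hinjP : Function.Injective (algebraMap (PowerSeries k) (FractionRing (PowerSeries k))) :=
    IsFractionRing.injective _ _
  -- the embedding of `k(x)`
  let ι₀ : k[X] →+* FractionRing (PowerSeries k) :=
    (algebraMap (PowerSeries k) (FractionRing (PowerSeries k))).comp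
      (Polynomial.coeToPowerSeries.ringHom (R := k))
  have hι₀ : Function.Injective ι₀ := hinjP.comp (Polynomial.coe_injective k)
  let ι : RatFunc k →+* FractionRing (PowerSeries k) := IsFractionRing.lift (g := ι₀) hι₀
  have hι : ∀ f : k[X], ι (algebraMap k[X] (RatFunc k) f) =
      algebraMap (PowerSeries k) (FractionRing (PowerSeries k)) (f : PowerSeries k) := by
    intro f
    exact IsFractionRing.lift_algebraMap hι₀ f
  -- the involution of `k((x))`
  have hm1 : Function.Injective (PowerSeries.rescale (-1 : k)) :=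
    PowerSeries.rescale_injective (neg_ne_zero.2 one_ne_zero)
  have hres : ∀ f : PowerSeries k, PowerSeries.rescale (-1 : k) (PowerSeries.rescale (-1 : k) f) =
      f := by
    intro f
    rw [PowerSeries.rescale_rescale, neg_one_mul, neg_neg, PowerSeries.rescale_one,
      RingHom.id_apply]
  have hs₀ : Function.Injective ((algebraMap (PowerSeries k) (FractionRing (PowerSeries k))).comp
      (PowerSeries.rescale (-1 : k))) := hinjP.comp hm1
  let s : FractionRing (PowerSeries k) →+* FractionRing (PowerSeries k) :=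
    IsFractionRing.lift (g := (algebraMap (PowerSeries k) (FractionRing (PowerSeries k))).comp
      (PowerSeries.rescale (-1 : k))) hs₀
  have hsa : ∀ f : PowerSeries k, s (algebraMap _ _ f) =
      algebraMap (PowerSeries k) (FractionRing (PowerSeries k)) (PowerSeries.rescale (-1 : k) f) := by
    intro f
    exact IsFractionRing.lift_algebraMap hs₀ f
  have hss : ∀ z, s (s z) = z := by
    have h1 : s.comp s = RingHom.id _ := by
      apply IsLocalization.ringHom_ext (nonZeroDivisors (PowerSeries k))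
      ext f
      rw [RingHom.comp_apply, RingHom.comp_apply, hsa, hsa, hres, RingHom.comp_apply,
        RingHom.id_apply]
    intro z
    exact congrArg (fun f : FractionRing (PowerSeries k) →+* FractionRing (PowerSeries k) => f z) h1
  -- the involution of `k(x)`
  have hcomp : ∀ f : k[X], (f.comp (-X)).comp (-X) = f := by
    intro f
    rw [comp_assoc, neg_comp, X_comp, neg_neg, comp_X]
  have hν₀ : Function.Injective ((algebraMap k[X] (RatFunc k)).comp (compRingHom (-X : k[X]))) := by
    apply (IsFractionRing.injective k[X] (RatFunc k)).comp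
    intro f g hfg
    rw [← hcomp f, ← hcomp g]
    exact congrArg (fun u : k[X] => u.comp (-X)) hfg
  let ν : RatFunc k →+* RatFunc k :=
    IsFractionRing.lift (g := (algebraMap k[X] (RatFunc k)).comp (compRingHom (-X : k[X]))) hν₀
  have hνa : ∀ f : k[X], ν (algebraMap k[X] (RatFunc k) f) =
      algebraMap k[X] (RatFunc k) (f.comp (-X)) := by
    intro f
    exact IsFractionRing.lift_algebraMap hν₀ f
  have hsν : ∀ a, s (ι a) = ι (ν a) := by
    have h1 : s.comp ι = ι.comp ν := by
      apply IsLocalization.ringHom_ext (nonZeroDivisors k[X])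
      apply Polynomial.ringHom_ext
      · intro c
        rw [RingHom.comp_apply, RingHom.comp_apply, RingHom.comp_apply, RingHom.comp_apply, hι, hνa,
          hι, hsa, C_comp]
        congr 1
        rw [Polynomial.coe_C]
        ext n
        rw [PowerSeries.coeff_rescale, PowerSeries.coeff_C]
        split_ifs with hn
        · rw [hn, pow_zero, one_mul]
        · rw [mul_zero]
      · rw [RingHom.comp_apply, RingHom.comp_apply, RingHom.comp_apply, RingHom.comp_apply, hι, hνa,
          hι, hsa, X_comp]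
        congr 1
        rw [Polynomial.coe_X, PowerSeries.rescale_neg_one_X]
        rw [Polynomial.coe_neg, Polynomial.coe_X]
    intro a
    exact congrArg (fun f : RatFunc k →+* FractionRing (PowerSeries k) => f a) h1
  let _ : Algebra (RatFunc k) (FractionRing (PowerSeries k)) := ι.toAlgebra
  have halg : algebraMap (RatFunc k) (FractionRing (PowerSeries k)) = ι := rfl
  have hιX : ι RatFunc.X = algebraMap (PowerSeries k) (FractionRing (PowerSeries k))
      PowerSeries.X := by
    rw [← RatFunc.algebraMap_X, hι, Polynomial.coe_X]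
  -- the roots
  have hroot : ∀ i, ∃ j, PowerSeries.rescale (-1 : k) (r i) = r j := by
    intro i
    have h1 : (r i) ^ p - (r i) ^ 2 + PowerSeries.X ^ 2 = 0 := by
      have h2 := congrArg (eval (r i)) hprod
      rw [eval_prod, Finset.prod_eq_zero (Finset.mem_univ i) (by rw [eval_sub, eval_X, eval_C,
        sub_self])] at h2
      simpa using h2
    have h3 := congrArg (PowerSeries.rescale (-1 : k)) h1
    rw [map_add, map_sub, map_pow, map_pow, map_pow, map_zero, PowerSeries.rescale_neg_one_X,
      neg_sq] at h3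
    have h4 := congrArg (eval (PowerSeries.rescale (-1 : k) (r i))) hprod
    rw [eval_prod] at h4
    simp only [eval_add, eval_sub, eval_pow, eval_X, eval_C] at h4
    rw [h3] at h4
    obtain ⟨j, _, hj⟩ := Finset.prod_eq_zero_iff.1 h4.symm
    exact ⟨j, sub_eq_zero.1 hj⟩
  have hcoe : ∀ f : PowerSeries k, PowerSeries.constantCoeff (PowerSeries.rescale (-1 : k) f) =
      PowerSeries.constantCoeff f := by
    intro f
    rw [← PowerSeries.coeff_zero_eq_constantCoeff_apply,
      ← PowerSeries.coeff_zero_eq_constantCoeff_apply, PowerSeries.coeff_rescale, pow_zero, one_mul]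
  have hr0 : PowerSeries.rescale (-1 : k) (r i₀) = r i₁ := by
    obtain ⟨j, hj⟩ := hroot i₀
    have h1 : i₀ ≠ j := by
      rintro rfl
      have h2 := congrArg (PowerSeries.coeff 1) hj
      rw [PowerSeries.coeff_rescale, hk0, pow_one, mul_one] at h2
      have h3 : (2 : k) = 0 := by linear_combination -h2
      have h4 : ((2 : ℕ) : k) = 0 := by exact_mod_cast h3
      rw [CharP.cast_eq_zero_iff k p] at h4
      exact absurd (Nat.le_of_dvd two_pos h4) (by omega)
    rcases huniq i₀ j (by rw [← hj, hcoe]) h1 with h | h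
    · rw [hj, h.2]
    · exact absurd h.1 h01
  have hr1 : PowerSeries.rescale (-1 : k) (r i₁) = r i₀ := by
    rw [← hr0, hres]
  have hri : ∀ i, i ≠ i₀ → i ≠ i₁ → PowerSeries.rescale (-1 : k) (r i) = r i := by
    intro i hi0 hi1
    obtain ⟨j, hj⟩ := hroot i
    by_cases h1 : i = j
    · rw [hj, ← h1]
    · rcases huniq i j (by rw [← hj, hcoe]) h1 with h | h
      · exact absurd h.1 hi0
      · exact absurd h.1 hi1
  have hprodQ : (FP k p).map (algebraMap (RatFunc k) (FractionRing (PowerSeries k))) =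
      ∏ i, (X - C (algebraMap (PowerSeries k) (FractionRing (PowerSeries k)) (r i))) := by
    have h1 := congrArg (Polynomial.map (algebraMap (PowerSeries k)
      (FractionRing (PowerSeries k)))) hprod
    rw [Polynomial.map_prod] at h1
    simp only [Polynomial.map_add, Polynomial.map_sub, Polynomial.map_pow, map_X, map_C,
      map_pow] at h1
    rw [← h1, FP]
    simp only [Polynomial.map_add, Polynomial.map_sub, Polynomial.map_pow, map_X, map_C, map_pow]
    rw [halg, hιX]
  obtain ⟨a, b, hab, hsw⟩ := PTr_swap (L := L) (FractionRing (PowerSeries k))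
    (fun i => algebraMap (PowerSeries k) (FractionRing (PowerSeries k)) (r i)) (hinjP.comp hr)
    hprodQ s hss ν hsν
    (by
      intro c
      have h1 : algebraMap k (RatFunc k) c = algebraMap k[X] (RatFunc k) (C c) := by
        rfl
      rw [h1, hνa, C_comp])
    (by
      rw [← RatFunc.algebraMap_X, hνa, X_comp, map_neg]) hirr.ne_zero i₀ i₁ h01
    (by rw [hsa, hr0]) (by rw [hsa, hr1]) (fun i h0 h1 => by rw [hsa, hri i h0 h1]) ψ
  refine PTr_alt hp (PTr_E k p ψ) _ ?_ a b hab hsw (fun π hπ => PTr_sq ψ π hπ)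
  intro i j
  obtain ⟨σ, hσ⟩ := SnT.SGal_trans (L := L) hirr (ψ i) (ψ j)
  refine ⟨prm (FP k p) ψ σ, ⟨(σ : L ≃+* L), fun c => σ.commutes _, ?_, fun l => ?_⟩, ?_⟩
  · change σ (xx k L) ^ 2 = xx k L ^ 2
    rw [SnT.xx, σ.commutes]
  · rw [prm_val]
    rfl
  · rw [prm_eq, ← hσ, SnT.rp_apply]

end MP7b0bad.ApT
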